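import Pool.Agent.Run7.h697.TW.POrd

set_option autoImplicit false
set_option linter.unusedSectionVars false
set_option linter.unusedVariables false

/-! # The formula for the zeta function in the half plane -/

namespace Pool.Agent.Run7.h697.TW

open Pool.Agent.W427.SMC Pool.Agent.TH192.PA Pool.Agent.TH192.DT Polynomial
open Pool.Agent.W206.CU (gen gen_igusa norm_T_lt T_ne_zero)
open Pool.Agent.W425.PZ (gen_eval)

variable {V T : Type} [Fintype V] [DecidableEq V] [Fintype T] [DecidableEq T] (F : Forest V)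
  {q : ℕ} [Fact q.Prime]

theorem poincare_same {W : Type} [Fintype W] (f : MvPolynomial W ℤ) :
    Pool.Agent.W206.CU.poincare q f = poincare q f := by
  unfold Pool.Agent.W206.CU.poincare poincare solCount
  congr 1
  funext m
  rw [Nat.card_eq_fintype_card (α := W), div_eq_mul_inv, inv_pow, ← pow_mul, ← pow_mul, mul_comm m]

theorem Kq_eq : Kq F q T = ∏ i : V ⊕ T, ((q : ℂ) ^ F.nu T i - 1) := by
  unfold Kq
  exact Finset.prod_congr rfl fun i _ => by rw [Nat.cast_pow]

/-- **The zeta function.** -/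
theorem igusa_complex (e : T → V → ℕ) (a : T → ℕ) (s : ℂ) (hs : 0 < s.re) :
    igusaZeta q (F.formZ e a) s = ∏ i : V ⊕ T, ((q : ℂ) ^ F.nu T i - 1) /
      ((q : ℂ) ^ F.nu T i - ((q : ℂ) ^ (-s)) ^ F.mul e a i) := by
  have hT := norm_T_lt q hs
  set x : ℂ := (q : ℂ) ^ (-s) with hx
  have hx0 : x ≠ 0 := T_ne_zero q s
  have h1 := gen_igusa q (F.formZ e a) hs hT
  have h0 := poincare_formula (q := q) F e a
  rw [← poincare_same] at h0
  have h2 := gen_eval q (F.formZ e a) h0 hT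
  simp only [eval_mul, eval_sub, eval_one, eval_X, eval_C] at h2
  have h3 : (Rc q (F.nu T) (F.mul e a)).eval x * igusaZeta q (F.formZ e a) s = Kq F q T := by
    refine mul_left_cancel₀ hx0 ?_
    linear_combination (Rc q (F.nu T) (F.mul e a)).eval x * h1 - h2
  have h4 : (Rc q (F.nu T) (F.mul e a)).eval x
      = ∏ i : V ⊕ T, ((q : ℂ) ^ F.nu T i - x ^ F.mul e a i) := by
    unfold Rc
    rw [eval_prod]
    refine Finset.prod_congr rfl fun i _ => ?_
    rw [eval_sub, eval_C, eval_pow, eval_X, Nat.cast_pow]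
  have h5 : ∀ i : V ⊕ T, ((q : ℂ) ^ F.nu T i - x ^ F.mul e a i) ≠ 0 := by
    intro i h
    rw [sub_eq_zero] at h
    have h6 := congrArg norm h
    rw [norm_pow, norm_pow, Complex.norm_natCast] at h6
    have h7 : ‖x‖ ^ F.mul e a i ≤ 1 := pow_le_one₀ (norm_nonneg _) hT.le
    have h8 : 1 < (q : ℝ) ^ F.nu T i :=
      one_lt_pow₀ (by exact_mod_cast (Fact.out : q.Prime).one_lt) (F.nu_pos T i).ne'
    linarith
  rw [Finset.prod_div_distrib, eq_div_iff (Finset.prod_ne_zero_iff.2 fun i _ => h5 i), ← h4,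
    ← Kq_eq, mul_comm]
  exact h3

/-- **The Poincaré series.** -/
theorem poincare_main (e : T → V → ℕ) (a : T → ℕ) :
    ((((∏ i : V ⊕ T, (C ((q : ℂ) ^ F.nu T i) - X ^ F.mul e a i)) * (1 - X) : ℂ[X])) :
      PowerSeries ℂ) * poincare q (F.formZ e a) =
        ((((∏ i : V ⊕ T, (C ((q : ℂ) ^ F.nu T i) - X ^ F.mul e a i)) -
          C (∏ i : V ⊕ T, ((q : ℂ) ^ F.nu T i - 1)) * X : ℂ[X])) : PowerSeries ℂ) := by
  have h := poincare_formula (q := q) F e a
  rw [Kq_eq] at h
  unfold Rc at h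
  simp only [Nat.cast_pow] at h
  exact h

theorem poincare_cnt (e : T → V → ℕ) (a : T → ℕ) (T₀ : ℂ) (r : ℕ) (hr : 0 < r) :
    Pool.Agent.W206.CU.IsPoleOfOrder (poincare q (F.formZ e a)) T₀ r ↔
      Nat.card {i : V ⊕ T // 0 < F.mul e a i ∧ T₀ ^ F.mul e a i = (q : ℂ) ^ F.nu T i} = r := by
  rw [poincare_poles F e a T₀ r hr]
  unfold cnt
  simp only [Nat.cast_pow]

end Pool.Agent.Run7.h697.TW
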