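import Pool.Agent.R779.HK.Tup

set_option autoImplicit false
set_option linter.unusedSectionVars false
set_option linter.unusedVariables false

/-! # Forests of vectors, and the maximal minors along their branches -/

namespace Pool.Agent.Run7.h697.TW

open MvPowerSeries Pool.Agent.W574.SM Pool.Agent.Y231.RF

/-- A rooted forest with the set of nodes `V`, given by its ancestor function: `dep v` is the depth
of the node `v` (the roots have depth `0`), and for `i ≤ dep v` the node `anc v i` is the ancestor of
`v` of depth `i`, with `anc v (dep v) = v` (for `i > dep v` the value `anc v i` has no meaning). A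
number `n v` is attached to the nodes, the same for the nodes of a tree, and larger than their
depths: the node `v` carries a vector of `n v` variables. -/
structure Forest (V : Type) where
  /-- the depth of a node -/
  dep : V → ℕ
  /-- the ancestors of a node -/
  anc : V → ℕ → V
  /-- the number of the coordinates of the vectors -/
  n : V → ℕ
  dep_anc : ∀ v i, i ≤ dep v → dep (anc v i) = i
  anc_self : ∀ v, anc v (dep v) = v
  anc_anc : ∀ v i j, j ≤ i → i ≤ dep v → anc (anc v i) j = anc v j
  n_anc : ∀ v i, i ≤ dep v → n (anc v i) = n v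
  lt : ∀ v, dep v < n v

variable {V : Type} [Fintype V] [DecidableEq V] (F : Forest V)

/-- The variables: `n v` of them for each node `v`. -/
abbrev Forest.Var : Type := Σ v : V, Fin (F.n v)

/-- The `j`-th coordinate of the vector of the node `v` (and `0` if there is no such coordinate). -/
noncomputable def Forest.coord (v : V) (j : ℕ) : MvPolynomial F.Var ℂ :=
  if h : j < F.n v then MvPolynomial.X ⟨v, ⟨j, h⟩⟩ else 0

/-- The choices of `dep v + 1` of the `n v` columns. -/
def Forest.Cols (v : V) : Type := Fin (F.dep v + 1) ↪o Fin (F.n v)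

noncomputable instance instFintypeCols (v : V) : Fintype (F.Cols v) :=
  inferInstanceAs (Fintype (Fin (F.dep v + 1) ↪o Fin (F.n v)))

noncomputable instance instDecidableEqCols (v : V) : DecidableEq (F.Cols v) :=
  Classical.decEq _

/-- The maximal minors of the matrix whose rows are the vectors of the nodes
`anc v 0, …, anc v (dep v) = v` of the branch which ends at `v`. -/
noncomputable def Forest.minor (v : V) (J : F.Cols v) : MvPolynomial F.Var ℂ :=
  (Matrix.of fun i j : Fin (F.dep v + 1) => F.coord (F.anc v i)
    ((show Fin (F.dep v + 1) ↪o Fin (F.n v) from J) j)).det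

/-- The node `v` lies on the branch which ends at `w`: `v = w`, or `v` is an ancestor of `w`. -/
def Forest.Le (v w : V) : Prop := F.dep v ≤ F.dep w ∧ F.anc w (F.dep v) = v

instance instDecidableLe (v w : V) : Decidable (F.Le v w) :=
  inferInstanceAs (Decidable (_ ∧ _))

theorem Forest.le_refl (v : V) : F.Le v v := ⟨_root_.le_refl _, F.anc_self v⟩

section Chart

variable (v0 : V) (lam : ℂ)

/-- the distinguished variable -/
def zz : F.Var := ⟨v0, ⟨F.dep v0, F.lt v0⟩⟩

/-- the rows of the other nodes -/
noncomputable def xr (u : V) (j : ℕ) : MvPowerSeries F.Var ℂ :=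
  if h : j < F.n u then X ⟨u, ⟨j, h⟩⟩ + C (if j = F.dep u then lam else 0) else 0

/-- the direction in which the vector of `v0` leaves the span of the vectors of its ancestors -/
noncomputable def om (j : ℕ) : MvPowerSeries F.Var ℂ :=
  if j = F.dep v0 then 1 else if h : F.dep v0 < j ∧ j < F.n v0 then X ⟨v0, ⟨j, h.2⟩⟩ else 0

/-- the coefficients of the row of `v0` -/
noncomputable def cf (k : ℕ) : MvPowerSeries F.Var ℂ :=
  if h : k < F.n v0 ∧ k ≤ F.dep v0 then X ⟨v0, ⟨k, h.1⟩⟩ else 0

/-- the rows with the row of `v0` replaced by the direction -/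
noncomputable def rw' (u : V) (j : ℕ) : MvPowerSeries F.Var ℂ :=
  if u = v0 then om F v0 j else xr F lam u j

/-- the chart, row by row -/
noncomputable def xiN (u : V) (j : ℕ) : MvPowerSeries F.Var ℂ :=
  if u = v0 then ∑ k : Fin (F.dep v0 + 1), cf F v0 k * rw' F v0 lam (F.anc v0 k) j
  else xr F lam u j

/-- the chart -/
noncomputable def xi (s : F.Var) : MvPowerSeries F.Var ℂ := xiN F v0 lam s.1 s.2

theorem om_big {j : ℕ} (hj : F.n v0 ≤ j) : om F v0 j = 0 := by
  have := F.lt v0
  rw [om, if_neg (by omega), dif_neg (by omega)]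

theorem xr_big {u : V} {j : ℕ} (hj : F.n u ≤ j) : xr F lam u j = 0 := by
  rw [xr, dif_neg (by omega)]

theorem rw'_big {u : V} {j : ℕ} (hj : F.n u ≤ j) : rw' F v0 lam u j = 0 := by
  unfold rw'
  split_ifs with h
  · subst h; exact om_big F u hj
  · exact xr_big F lam hj

theorem xiN_big {u : V} {j : ℕ} (hj : F.n u ≤ j) : xiN F v0 lam u j = 0 := by
  unfold xiN
  split_ifs with h
  · subst h
    refine Finset.sum_eq_zero fun k _ => ?_
    rw [rw'_big, mul_zero]
    rw [F.n_anc u k (by have := k.2; omega)]
    exact hj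
  · exact xr_big F lam hj

theorem aeval_coord (u : V) (j : ℕ) :
    MvPolynomial.aeval (xi F v0 lam) (F.coord u j) = xiN F v0 lam u j := by
  unfold Forest.coord
  split_ifs with h
  · rw [MvPolynomial.aeval_X]; rfl
  · rw [map_zero, xiN_big F v0 lam (by omega)]

/-- the matrix which gives the minor, divided by the power of `z` -/
noncomputable def Dm (w : V) (J : Fin (F.dep w + 1) → ℕ) :
    Matrix (Fin (F.dep w + 1)) (Fin (F.dep w + 1)) (MvPowerSeries F.Var ℂ) :=
  Matrix.of fun i j => rw' F v0 lam (F.anc w i) (J j)

theorem anc_ne {w : V} {i : ℕ} (hi : i ≤ F.dep w) (hne : i ≠ F.dep v0) : F.anc w i ≠ v0 := by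
  intro h
  apply hne
  rw [← h, F.dep_anc w i hi]

theorem cf_self : cf F v0 (F.dep v0) = X (zz F v0) := by
  rw [cf, dif_pos ⟨F.lt v0, _root_.le_refl _⟩]
  rfl

theorem minor_det (w : V) (J : Fin (F.dep w + 1) → ℕ) :
    (Matrix.of fun i j : Fin (F.dep w + 1) => xiN F v0 lam (F.anc w i) (J j)).det
      = X (zz F v0) ^ (if F.Le v0 w then 1 else 0) * (Dm F v0 lam w J).det := by
  by_cases h : F.Le v0 w
  · rw [if_pos h, pow_one]
    obtain ⟨h1, h2⟩ := h
    set i0 : Fin (F.dep w + 1) := ⟨F.dep v0, by omega⟩ with hi0
    have hM : (Matrix.of fun i j : Fin (F.dep w + 1) => xiN F v0 lam (F.anc w i) (J j))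
        = (Dm F v0 lam w J).updateRow i0 (∑ k : Fin (F.dep w + 1),
            (if (k : ℕ) ≤ F.dep v0 then cf F v0 k else 0) • (Dm F v0 lam w J) k) := by
      ext1 i j
      rw [Matrix.updateRow_apply, Matrix.of_apply]
      by_cases hi : i = i0
      · rw [if_pos hi, hi]
        have hv : F.anc w i0 = v0 := h2
        rw [hv, xiN, if_pos rfl, Finset.sum_apply]
        simp only [Pi.smul_apply, smul_eq_mul, ite_mul, zero_mul]
        rw [← Finset.sum_filter]
        symm
        refine Finset.sum_nbij' (fun k => (⟨min k.1 (F.dep v0), by omega⟩ : Fin (F.dep v0 + 1)))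
          (fun k => ⟨k, by have := k.2; omega⟩) ?_ ?_ ?_ ?_ ?_
        · intro k hk; exact Finset.mem_univ _
        · intro k hk
          rw [Finset.mem_filter]
          exact ⟨Finset.mem_univ _, by have := k.2; simp only; omega⟩
        · intro k hk
          rw [Finset.mem_filter] at hk
          exact Fin.ext (by simp only; omega)
        · intro k hk
          exact Fin.ext (by have := k.2; simp only; omega)
        · intro k hk
          rw [Finset.mem_filter] at hk
          have h3 : min k.1 (F.dep v0) = k.1 := by omega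
          simp only [h3, Dm, Matrix.of_apply]
          have h4 : F.anc v0 k = F.anc w k := by
            conv_lhs => rw [← h2]
            exact F.anc_anc w _ _ hk.2 h1
          rw [h4]
      · rw [if_neg hi, xiN, if_neg (anc_ne F v0 (by have := i.2; omega) fun h3 => hi (Fin.ext h3)),
          Dm, Matrix.of_apply, rw',
          if_neg (anc_ne F v0 (by have := i.2; omega) fun h3 => hi (Fin.ext h3))]
    rw [hM, Matrix.det_updateRow_sum]
    rw [if_pos (_root_.le_refl _), smul_eq_mul]
    change cf F v0 (F.dep v0) * _ = _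
    rw [cf_self]
  · rw [if_neg h, pow_zero, one_mul]
    congr 1
    ext1 i j
    rw [Matrix.of_apply, Dm, Matrix.of_apply, xiN, rw', if_neg, if_neg]
    · intro h2
      apply h
      have h3 := F.dep_anc w i (by have := i.2; omega)
      rw [h2] at h3
      exact ⟨by have := i.2; omega, by rw [h3]; exact h2⟩
    · intro h2
      apply h
      have h3 := F.dep_anc w i (by have := i.2; omega)
      rw [h2] at h3
      exact ⟨by have := i.2; omega, by rw [h3]; exact h2⟩

theorem minor_eq (w : V) (J : F.Cols w) :
    MvPolynomial.aeval (xi F v0 lam) (F.minor w J)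
      = X (zz F v0) ^ (if F.Le v0 w then 1 else 0) *
        (Dm F v0 lam w fun j => ((show Fin (F.dep w + 1) ↪o Fin (F.n w) from J) j : ℕ)).det := by
  rw [← minor_det, Forest.minor, AlgHom.map_det]
  congr 1
  ext1 i j
  rw [AlgHom.mapMatrix_apply, Matrix.map_apply, Matrix.of_apply, Matrix.of_apply, aeval_coord]

/-- constant terms -/
theorem cc_xr (u : V) (j : ℕ) (hj : j < F.n u) :
    constantCoeff (xr F lam u j) = if j = F.dep u then lam else 0 := by
  rw [xr, dif_pos hj]
  simp

theorem cc_om (j : ℕ) : constantCoeff (om F v0 j) = if j = F.dep v0 then 1 else 0 := by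
  unfold om
  split_ifs <;> simp

theorem cc_cf (k : ℕ) : constantCoeff (cf F v0 k) = 0 := by
  unfold cf
  split_ifs <;> simp

theorem cc_xiN (u : V) (j : ℕ) (hj : j < F.n u) :
    constantCoeff (xiN F v0 lam u j) = if u ≠ v0 ∧ j = F.dep u then lam else 0 := by
  unfold xiN
  by_cases h : u = v0
  · rw [if_pos h, map_sum, if_neg (by tauto)]
    refine Finset.sum_eq_zero fun k _ => ?_
    rw [map_mul, cc_cf, zero_mul]
  · rw [if_neg h, cc_xr F lam u j hj]
    by_cases h2 : j = F.dep u
    · rw [if_pos h2, if_pos ⟨h, h2⟩]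
    · rw [if_neg h2, if_neg (by tauto)]

theorem cc_rw' (u : V) (j : ℕ) (hj : j < F.n u) :
    constantCoeff (rw' F v0 lam u j)
      = if j = F.dep u then (if u = v0 then 1 else lam) else 0 := by
  unfold rw'
  by_cases h : u = v0
  · rw [if_pos h, cc_om, if_pos h, h]
  · rw [if_neg h, cc_xr F lam u j hj, if_neg h]

/-- the first columns -/
noncomputable def J0 (w : V) : F.Cols w := Fin.castLEOrderEmb (F.lt w)

theorem J0_val (w : V) (j : Fin (F.dep w + 1)) :
    ((show Fin (F.dep w + 1) ↪o Fin (F.n w) from J0 F w) j : ℕ) = j := rfl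

theorem cc_det_ne (hl : lam ≠ 0) (w : V) :
    constantCoeff (Dm F v0 lam w fun j => (j : ℕ)).det ≠ 0 := by
  rw [RingHom.map_det]
  have h1 : (constantCoeff : MvPowerSeries F.Var ℂ →+* ℂ).mapMatrix (Dm F v0 lam w fun j => (j : ℕ))
      = Matrix.diagonal fun i : Fin (F.dep w + 1) => if F.anc w i = v0 then 1 else lam := by
    ext i j
    have hi := i.2
    have hj := j.2
    have hlt := F.lt w
    rw [RingHom.mapMatrix_apply, Matrix.map_apply, Dm, Matrix.of_apply, cc_rw', F.dep_anc w i
      (by omega), Matrix.diagonal_apply]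
    · by_cases h : i = j
      · rw [if_pos h, if_pos (by rw [h])]
      · rw [if_neg h, if_neg (fun h2 => h (Fin.ext h2.symm))]
    · rw [F.n_anc w i (by omega)]
      omega
  rw [h1, Matrix.det_diagonal]
  refine Finset.prod_ne_zero_iff.2 fun i _ => ?_
  split_ifs
  · exact one_ne_zero
  · exact hl

end Chart

end Pool.Agent.Run7.h697.TW
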