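import Pool.Agent.Run7.h697.TW.Base

set_option autoImplicit false
set_option linter.unusedSectionVars false
set_option linter.unusedVariables false

/-! # The Rees divisors of the nodes of a forest -/

namespace Pool.Agent.Run7.h697.TW

open MvPowerSeries Pool.Agent.W574.SM Pool.Agent.Y231.RF Pool.Agent.Y228.RR Pool.Agent.TH192.DT
  Pool.Agent.H628R4.TP Pool.Agent.W574.HS Pool.Agent.W574.LM

variable {V : Type} [Fintype V] [DecidableEq V] (F : Forest V) (v0 : V) (lam : ℂ)

theorem snd_lt {t : F.Var} {v : V} (h : t.1 = v) : (t.2 : ℕ) < F.n v := by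
  subst h
  exact t.2.2

theorem der_xr (t : F.Var) (u : V) (j : ℕ) :
    pderiv ℂ t (xr F lam u j) = if t.1 = u ∧ (t.2 : ℕ) = j then 1 else 0 := by
  unfold xr
  by_cases h : j < F.n u
  · rw [dif_pos h, map_add, pderiv_C, add_zero]
    by_cases h2 : t.1 = u ∧ (t.2 : ℕ) = j
    · rw [if_pos h2]
      obtain ⟨h3, h4⟩ := h2
      obtain ⟨v, i⟩ := t
      simp only at h3
      subst h3
      simp only at h4
      have h5 : i = ⟨j, h⟩ := Fin.ext h4
      rw [h5, pderiv_X_self]
    · rw [if_neg h2, pderiv_X_of_ne]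
      intro h3
      apply h2
      rw [← h3]
      exact ⟨rfl, rfl⟩
  · rw [dif_neg h, map_zero, if_neg]
    rintro ⟨h1, h2⟩
    apply h
    rw [← h1, ← h2]
    exact t.2.2

theorem der_om (t : F.Var) (j : ℕ) :
    pderiv ℂ t (om F v0 j) = if t.1 = v0 ∧ F.dep v0 < (t.2 : ℕ) ∧ (t.2 : ℕ) = j then 1 else 0 := by
  unfold om
  by_cases h1 : j = F.dep v0
  · rw [if_pos h1, if_neg (by omega)]
    exact Derivation.map_one_eq_zero _
  rw [if_neg h1]
  by_cases h : F.dep v0 < j ∧ j < F.n v0
  · rw [dif_pos h]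
    by_cases h2 : t.1 = v0 ∧ F.dep v0 < (t.2 : ℕ) ∧ (t.2 : ℕ) = j
    · rw [if_pos h2]
      obtain ⟨h3, -, h4⟩ := h2
      obtain ⟨v, i⟩ := t
      simp only at h3
      subst h3
      simp only at h4
      have h5 : i = ⟨j, h.2⟩ := Fin.ext h4
      rw [h5, pderiv_X_self]
    · rw [if_neg h2, pderiv_X_of_ne]
      intro h3
      apply h2
      rw [← h3]
      exact ⟨rfl, h.1, rfl⟩
  · rw [dif_neg h, map_zero, if_neg]
    rintro ⟨h3, h4, h5⟩
    apply h
    refine ⟨by omega, ?_⟩
    rw [← h5]
    exact snd_lt F h3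

theorem der_cf (t : F.Var) (k : ℕ) :
    pderiv ℂ t (cf F v0 k) = if t.1 = v0 ∧ (t.2 : ℕ) ≤ F.dep v0 ∧ (t.2 : ℕ) = k then 1 else 0 := by
  unfold cf
  by_cases h : k < F.n v0 ∧ k ≤ F.dep v0
  · rw [dif_pos h]
    by_cases h2 : t.1 = v0 ∧ (t.2 : ℕ) ≤ F.dep v0 ∧ (t.2 : ℕ) = k
    · rw [if_pos h2]
      obtain ⟨h3, -, h4⟩ := h2
      obtain ⟨v, i⟩ := t
      simp only at h3
      subst h3
      simp only at h4
      have h5 : i = ⟨k, h.1⟩ := Fin.ext h4
      rw [h5, pderiv_X_self]
    · rw [if_neg h2, pderiv_X_of_ne]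
      intro h3
      apply h2
      rw [← h3]
      exact ⟨rfl, h.2, rfl⟩
  · rw [dif_neg h, map_zero, if_neg]
    rintro ⟨h3, h4, h5⟩
    apply h
    refine ⟨?_, by omega⟩
    rw [← h5]
    exact snd_lt F h3

/-- the derivatives of the rows, other than in the directions of the exceptional divisor -/
theorem cc_der_xi (t i : F.Var) (ht : ¬ (t.1 = v0 ∧ F.dep v0 < (t.2 : ℕ))) :
    constantCoeff (pderiv ℂ t (xi F v0 lam i))
      = if i = t then (if t.1 = v0 ∧ (t.2 : ℕ) < F.dep v0 then lam else 1) else 0 := by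
  unfold xi xiN
  by_cases hi : i.1 = v0
  · rw [if_pos hi, map_sum, map_sum]
    have h1 : ∀ k : Fin (F.dep v0 + 1), constantCoeff
        (pderiv ℂ t (cf F v0 k * rw' F v0 lam (F.anc v0 k) i.2))
        = if i = t ∧ (k : ℕ) = (t.2 : ℕ) then (if (t.2 : ℕ) < F.dep v0 then lam else 1) else 0 := by
      intro k
      have hk := k.2
      rw [Derivation.leibniz, map_add, smul_eq_mul, smul_eq_mul, map_mul, map_mul, cc_cf, zero_mul,
        zero_add, der_cf, cc_rw', F.dep_anc v0 k (by omega)]
      · by_cases h2 : i = t ∧ (k : ℕ) = (t.2 : ℕ)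
        · rw [if_pos h2]
          obtain ⟨rfl, h3⟩ := h2
          have h6 : i.1 = v0 ∧ (i.2 : ℕ) ≤ F.dep v0 ∧ (i.2 : ℕ) = k := ⟨hi, by omega, h3.symm⟩
          rw [if_pos h3.symm, if_pos h6, map_one, mul_one]
          by_cases h4 : (i.2 : ℕ) < F.dep v0
          · rw [if_pos h4, if_neg (anc_ne F v0 (by omega) (by omega))]
          · rw [if_neg h4, if_pos]
            have h5 : (k : ℕ) = F.dep v0 := by omega
            rw [h5, F.anc_self]
        · rw [if_neg h2]
          by_cases h3 : (i.2 : ℕ) = k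
          · have h7 : ¬ (t.1 = v0 ∧ (t.2 : ℕ) ≤ F.dep v0 ∧ (t.2 : ℕ) = k) := by
              rintro ⟨h4, h5, h6⟩
              apply h2
              refine ⟨?_, h6.symm⟩
              obtain ⟨u, i⟩ := i
              obtain ⟨v, t⟩ := t
              simp only at hi h4
              subst hi h4
              simp only at h3 h6
              exact congrArg _ (Fin.ext (by omega))
            rw [if_neg h7, map_zero, mul_zero]
          · rw [if_neg h3, zero_mul]
      · rw [F.n_anc v0 k (by omega)]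
        exact snd_lt F hi
    rw [Finset.sum_congr rfl fun k _ => h1 k]
    by_cases h2 : i = t
    · subst h2
      have h3 : (i.2 : ℕ) ≤ F.dep v0 := by
        by_contra h4
        exact ht ⟨hi, by omega⟩
      rw [Finset.sum_eq_single (⟨(i.2 : ℕ), by omega⟩ : Fin (F.dep v0 + 1))]
      · rw [if_pos ⟨rfl, rfl⟩, if_pos rfl]
        by_cases h4 : (i.2 : ℕ) < F.dep v0
        · rw [if_pos h4, if_pos ⟨hi, h4⟩]
        · rw [if_neg h4, if_neg (by tauto)]
      · intro k _ hk
        rw [if_neg]
        rintro ⟨-, h5⟩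
        exact hk (Fin.ext h5)
      · intro h5; exact absurd (Finset.mem_univ _) h5
    · rw [if_neg h2]
      refine Finset.sum_eq_zero fun k _ => ?_
      rw [if_neg (by tauto)]
  · rw [if_neg hi, der_xr]
    by_cases h2 : i = t
    · subst h2
      rw [if_pos ⟨rfl, rfl⟩, if_pos rfl, if_neg (by tauto), map_one]
    · rw [if_neg h2, if_neg, map_zero]
      rintro ⟨h3, h4⟩
      apply h2
      obtain ⟨u, i⟩ := i
      obtain ⟨v, t⟩ := t
      simp only at h3
      subst h3
      simp only at h4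
      exact congrArg _ (Fin.ext (by omega))

/-- the derivatives in the directions of the exceptional divisor -/
theorem der_xi_dir (t i : F.Var) (ht : t.1 = v0 ∧ F.dep v0 < (t.2 : ℕ)) :
    pderiv ℂ t (xi F v0 lam i) = if i = t then X (zz F v0) else 0 := by
  unfold xi xiN
  by_cases hi : i.1 = v0
  · rw [if_pos hi, map_sum]
    rw [Finset.sum_eq_single (⟨F.dep v0, by omega⟩ : Fin (F.dep v0 + 1))]
    · rw [Derivation.leibniz, der_cf, if_neg (by omega), smul_zero, add_zero]
      simp only
      rw [cf_self, rw', F.anc_self, if_pos rfl, der_om, smul_eq_mul]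
      by_cases h2 : i = t
      · subst h2
        rw [if_pos ⟨ht.1, ht.2, rfl⟩, if_pos rfl, mul_one]
      · rw [if_neg h2, if_neg, mul_zero]
        rintro ⟨h3, h4, h5⟩
        apply h2
        obtain ⟨u, i⟩ := i
        obtain ⟨v, t⟩ := t
        simp only at hi h3
        subst hi h3
        simp only at h5
        exact congrArg _ (Fin.ext (by omega))
    · intro k _ hk
      have hk2 : (k : ℕ) ≠ F.dep v0 := fun h => hk (Fin.ext h)
      have hk3 := k.2
      have hne : F.anc v0 k ≠ v0 := anc_ne F v0 (by omega) hk2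
      rw [Derivation.leibniz, der_cf, if_neg (by omega), smul_zero, add_zero, rw', if_neg hne,
        der_xr, if_neg, smul_zero]
      rintro ⟨h3, -⟩
      exact hne (h3.symm.trans ht.1)
    · intro h5; exact absurd (Finset.mem_univ _) h5
  · rw [if_neg hi, der_xr, if_neg, if_neg]
    · rintro rfl
      exact hi ht.1
    · rintro ⟨h3, -⟩
      exact hi (h3.symm.trans ht.1)

/-- the number of the directions -/
theorem prod_dir (x : MvPowerSeries F.Var ℂ) :
    ∏ t : F.Var, (if t.1 = v0 ∧ F.dep v0 < (t.2 : ℕ) then x else 1)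
      = x ^ (F.n v0 - F.dep v0 - 1) := by
  rw [Fintype.prod_sigma, Finset.prod_eq_single v0]
  · simp only [true_and]
    rw [Finset.prod_ite, Finset.prod_const_one, mul_one, Finset.prod_const]
    congr 1
    have h1 := Finset.card_filter_add_card_filter_not (s := (Finset.univ : Finset (Fin (F.n v0))))
      (fun t => (t : ℕ) < F.dep v0 + 1)
    have h2 : (Finset.univ.filter fun t : Fin (F.n v0) => (t : ℕ) < F.dep v0 + 1).card
        = F.dep v0 + 1 := by
      rw [Fin.card_filter_val_lt]
      exact min_eq_right (F.lt v0)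
    have h3 : (Finset.univ.filter fun t : Fin (F.n v0) => ¬ (t : ℕ) < F.dep v0 + 1)
        = Finset.univ.filter fun t : Fin (F.n v0) => F.dep v0 < (t : ℕ) :=
      Finset.filter_congr fun t _ => by omega
    rw [h2, h3, Finset.card_univ, Fintype.card_fin] at h1
    omega
  · intro u _ hu
    refine Finset.prod_eq_one fun j _ => ?_
    rw [if_neg]
    rintro ⟨h, -⟩
    exact hu h
  · intro h5; exact absurd (Finset.mem_univ _) h5

theorem jacobian (hl : lam ≠ 0) : ∃ U : MvPowerSeries F.Var ℂ, constantCoeff U ≠ 0 ∧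
    (Matrix.of fun t i => pderiv ℂ t (xi F v0 lam i)).det
      = X (zz F v0) ^ (F.n v0 - F.dep v0 - 1) * U := by
  set M : Matrix F.Var F.Var (MvPowerSeries F.Var ℂ) := Matrix.of fun t i =>
    if t.1 = v0 ∧ F.dep v0 < (t.2 : ℕ) then (if i = t then 1 else 0)
    else pderiv ℂ t (xi F v0 lam i) with hM
  refine ⟨M.det, ?_, ?_⟩
  · rw [RingHom.map_det]
    have h1 : (constantCoeff : MvPowerSeries F.Var ℂ →+* ℂ).mapMatrix M
        = Matrix.diagonal fun t : F.Var => if t.1 = v0 ∧ (t.2 : ℕ) < F.dep v0 then lam else 1 := by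
      ext t i
      rw [RingHom.mapMatrix_apply, Matrix.map_apply, hM, Matrix.of_apply, Matrix.diagonal_apply]
      by_cases h : t.1 = v0 ∧ F.dep v0 < (t.2 : ℕ)
      · rw [if_pos h]
        by_cases h2 : i = t
        · rw [if_pos h2, if_pos h2.symm, map_one, if_neg (by omega)]
        · rw [if_neg h2, if_neg (fun h3 => h2 h3.symm), map_zero]
      · rw [if_neg h, cc_der_xi F v0 lam t i h]
        by_cases h2 : i = t
        · rw [if_pos h2, if_pos h2.symm]
        · rw [if_neg h2, if_neg (fun h3 => h2 h3.symm)]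
    rw [h1, Matrix.det_diagonal]
    refine Finset.prod_ne_zero_iff.2 fun i _ => ?_
    split_ifs
    · exact hl
    · exact one_ne_zero
  · rw [← prod_dir F v0 (X (zz F v0))]
    have h1 : (Matrix.of fun t i => pderiv ℂ t (xi F v0 lam i))
        = Matrix.of fun t i => (if t.1 = v0 ∧ F.dep v0 < (t.2 : ℕ) then X (zz F v0) else 1) * M t i := by
      ext1 t i
      rw [Matrix.of_apply, Matrix.of_apply, hM, Matrix.of_apply]
      by_cases h : t.1 = v0 ∧ F.dep v0 < (t.2 : ℕ)
      · rw [if_pos h, if_pos h, der_xi_dir F v0 lam t i h]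
        split_ifs
        · rw [mul_one]
        · rw [mul_zero]
      · rw [if_neg h, if_neg h, one_mul]
    rw [h1, Matrix.det_mul_column]

/-- the columns `0, …, c - 1, j` -/
noncomputable def J1 {j : ℕ} (hj : F.dep v0 < j) (hjn : j < F.n v0) : F.Cols v0 :=
  OrderEmbedding.ofStrictMono
    (fun i : Fin (F.dep v0 + 1) => (⟨if (i : ℕ) < F.dep v0 then i else j, by
      have := i.2; split_ifs <;> omega⟩ : Fin (F.n v0))) (by
    intro i i' h
    have h1 : (i : ℕ) < i' := h
    have h2 := i'.2
    rw [Fin.lt_def]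
    simp only
    split_ifs <;> omega)

theorem J1_val {j : ℕ} (hj : F.dep v0 < j) (hjn : j < F.n v0) (i : Fin (F.dep v0 + 1)) :
    ((show Fin (F.dep v0 + 1) ↪o Fin (F.n v0) from J1 F v0 hj hjn) i : ℕ)
      = if (i : ℕ) < F.dep v0 then (i : ℕ) else j := rfl

/-- the quotients of the minors -/
theorem quot_det {j : ℕ} (hj : F.dep v0 < j) (hjn : j < F.n v0) :
    (Dm F v0 lam v0 fun i => if (i : ℕ) < F.dep v0 then (i : ℕ) else j).det
      = (Dm F v0 lam v0 fun i => (i : ℕ)).det * X (⟨v0, ⟨j, hjn⟩⟩ : F.Var) := by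
  rw [Matrix.det_succ_row _ (Fin.last _), Matrix.det_succ_row _ (Fin.last _),
    Finset.sum_eq_single (Fin.last _), Finset.sum_eq_single (Fin.last _)]
  · have h1 : ∀ x : ℕ, rw' F v0 lam (F.anc v0 (F.dep v0)) x = om F v0 x := by
      intro x
      rw [F.anc_self, rw', if_pos rfl]
    have h2 : (Dm F v0 lam v0 fun i => if (i : ℕ) < F.dep v0 then (i : ℕ) else j) (Fin.last _)
        (Fin.last _) = X (⟨v0, ⟨j, hjn⟩⟩ : F.Var) := by
      rw [Dm, Matrix.of_apply, Fin.val_last, h1, if_neg (by omega), om, if_neg (by omega),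
        dif_pos ⟨hj, hjn⟩]
    have h3 : (Dm F v0 lam v0 fun i => (i : ℕ)) (Fin.last _) (Fin.last _) = 1 := by
      rw [Dm, Matrix.of_apply, Fin.val_last, h1, om, if_pos rfl]
    have h4 : ((Dm F v0 lam v0 fun i => if (i : ℕ) < F.dep v0 then (i : ℕ) else j).submatrix
        (Fin.last (F.dep v0)).succAbove (Fin.last (F.dep v0)).succAbove)
        = (Dm F v0 lam v0 fun i => (i : ℕ)).submatrix
        (Fin.last (F.dep v0)).succAbove (Fin.last (F.dep v0)).succAbove := by
      ext1 a b
      rw [Matrix.submatrix_apply, Matrix.submatrix_apply, Dm, Dm, Matrix.of_apply,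
        Matrix.of_apply, Fin.succAbove_last_apply, Fin.succAbove_last_apply, Fin.val_castSucc,
        Fin.val_castSucc, if_pos b.2]
    rw [h2, h3, h4]
    ring
  · intro b _ hb
    have hb2 : (b : ℕ) < F.dep v0 := by
      have := b.2
      have h5 : (b : ℕ) ≠ F.dep v0 := fun h => hb (Fin.ext h)
      omega
    have h1 : (Dm F v0 lam v0 fun i => (i : ℕ)) (Fin.last _) b = 0 := by
      rw [Dm, Matrix.of_apply, Fin.val_last, F.anc_self, rw', if_pos rfl, om,
        if_neg (by omega), dif_neg (by omega)]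
    rw [h1, mul_zero, zero_mul]
  · intro h5; exact absurd (Finset.mem_univ _) h5
  · intro b _ hb
    have hb2 : (b : ℕ) < F.dep v0 := by
      have := b.2
      have h5 : (b : ℕ) ≠ F.dep v0 := fun h => hb (Fin.ext h)
      omega
    have h1 : (Dm F v0 lam v0 fun i => if (i : ℕ) < F.dep v0 then (i : ℕ) else j)
        (Fin.last _) b = 0 := by
      rw [Dm, Matrix.of_apply, Fin.val_last, F.anc_self, rw', if_pos rfl, if_pos hb2, om,
        if_neg (by omega), dif_neg (by omega)]
    rw [h1, mul_zero, zero_mul]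
  · intro h5; exact absurd (Finset.mem_univ _) h5

/-- **The charts.** -/
theorem chart_exists (hl : lam ≠ 0) :
    ∃ E : Chart F.minor, E.k = F.n v0 - F.dep v0 - 1 ∧
      E.m = (fun w => if F.Le v0 w then 1 else 0) ∧ (E.IsRees fun w => w = v0) ∧
      (∀ s : F.Var, constantCoeff (E.ξ s)
        = if s.1 ≠ v0 ∧ (s.2 : ℕ) = F.dep s.1 then lam else 0) ∧
      ∃ (P : MvPolynomial F.Var ℂ) (U : MvPowerSeries F.Var ℂ), constantCoeff U ≠ 0 ∧
        MvPolynomial.aeval E.ξ P = X E.z * U := by
  classical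
  have hJ0 : ∀ w, MvPolynomial.aeval (xi F v0 lam) (F.minor w (J0 F w))
      = X (zz F v0) ^ (if F.Le v0 w then 1 else 0) * (Dm F v0 lam w fun j => (j : ℕ)).det := by
    intro w
    rw [minor_eq]
    rfl
  let E : Chart F.minor :=
    { z := zz F v0
      ξ := xi F v0 lam
      k := F.n v0 - F.dep v0 - 1
      m := fun w => if F.Le v0 w then 1 else 0
      j0 := fun w => J0 F w
      jacobian := jacobian F v0 lam hl
      divides := fun w j => by
        rw [minor_eq]
        exact dvd_mul_right _ _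
      attained := fun w => ⟨_, cc_det_ne F v0 lam hl w, hJ0 w⟩ }
  refine ⟨E, rfl, rfl, ?_, fun s => cc_xiN F v0 lam s.1 s.2 s.2.2, ?_⟩
  swap
  · refine ⟨F.minor v0 (J0 F v0), _, cc_det_ne F v0 lam hl v0, (hJ0 v0).trans ?_⟩
    rw [if_pos (F.le_refl v0), pow_one]
  refine ⟨fun t => if t.1 = v0 ∧ (t.2 : ℕ) < F.dep v0 then xi F v0 lam t else X t, ?_, ?_, ?_, ?_⟩
  · change ite _ _ _ = _
    rw [if_neg]
    rintro ⟨-, h⟩
    exact absurd h (lt_irrefl _)
  · intro t
    simp only
    split_ifs with h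
    · rw [xi, cc_xiN F v0 lam t.1 t.2 t.2.2, if_neg]
      rintro ⟨h2, -⟩
      exact h2 h.1
    · exact constantCoeff_X _
  · have h1 : (Matrix.of fun s t : F.Var => constantCoeff (pderiv ℂ s
        (if t.1 = v0 ∧ (t.2 : ℕ) < F.dep v0 then xi F v0 lam t else X t)))
        = Matrix.diagonal fun t : F.Var => if t.1 = v0 ∧ (t.2 : ℕ) < F.dep v0 then lam else 1 := by
      ext1 s t
      rw [Matrix.of_apply, Matrix.diagonal_apply]
      by_cases h : t.1 = v0 ∧ (t.2 : ℕ) < F.dep v0
      · rw [if_pos h]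
        by_cases hs : s.1 = v0 ∧ F.dep v0 < (s.2 : ℕ)
        · rw [der_xi_dir F v0 lam s t hs]
          have hne : t ≠ s := by
            rintro rfl
            omega
          rw [if_neg hne, if_neg hne.symm, map_zero]
        · rw [cc_der_xi F v0 lam s t hs]
          by_cases h2 : t = s
          · rw [if_pos h2, if_pos h2.symm]
          · rw [if_neg h2, if_neg (fun h3 => h2 h3.symm)]
      · rw [if_neg h]
        by_cases h2 : s = t
        · rw [h2, pderiv_X_self, if_pos rfl, if_neg h, map_one]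
        · rw [if_neg h2, pderiv_X_of_ne, map_zero]
          exact fun h3 => h2 h3.symm
    change (Matrix.of fun s t : F.Var => constantCoeff (pderiv ℂ s
        (if t.1 = v0 ∧ (t.2 : ℕ) < F.dep v0 then xi F v0 lam t else X t))).det ≠ 0
    rw [h1, Matrix.det_diagonal]
    refine Finset.prod_ne_zero_iff.2 fun i _ => ?_
    split_ifs
    · exact hl
    · exact one_ne_zero
  · intro t ht
    by_cases h1 : t.1 = v0
    · by_cases h2 : (t.2 : ℕ) < F.dep v0
      · left
        refine ⟨MvPolynomial.X t, ?_⟩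
        simp only [if_pos (show t.1 = v0 ∧ (t.2 : ℕ) < F.dep v0 from ⟨h1, h2⟩)]
        exact MvPolynomial.aeval_X _ _
      · right
        have h3 : F.dep v0 < (t.2 : ℕ) := by
          rcases lt_or_eq_of_le (not_lt.1 h2) with h4 | h4
          · exact h4
          · exfalso
            apply ht
            obtain ⟨u, i⟩ := t
            simp only at h1
            subst h1
            exact congrArg _ (Fin.ext h4.symm)
        have h4 : (t.2 : ℕ) < F.n v0 := snd_lt F h1
        have h5 : t = (⟨v0, ⟨t.2, h4⟩⟩ : F.Var) := by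
          obtain ⟨u, i⟩ := t
          simp only at h1
          subst h1
          rfl
        refine ⟨v0, rfl, Pi.single (J1 F v0 h3 h4) 1, ?_⟩
        rw [Finset.sum_eq_single (J1 F v0 h3 h4)]
        · rw [Pi.single_eq_same, one_smul]
          change MvPolynomial.aeval (xi F v0 lam) (F.minor v0 (J1 F v0 h3 h4))
            = MvPolynomial.aeval (xi F v0 lam) (F.minor v0 (J0 F v0)) * _
          rw [hJ0, minor_eq]
          simp only [J1_val]
          rw [quot_det F v0 lam h3 h4, if_neg (show ¬ (t.1 = v0 ∧ (t.2 : ℕ) < F.dep v0) from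
            fun h6 => h2 h6.2), mul_assoc]
          rw [← h5]
        · intro j _ hj
          rw [Pi.single_eq_of_ne hj, zero_smul]
        · intro h; exact absurd (Finset.mem_univ _) h
    · left
      refine ⟨MvPolynomial.X t - MvPolynomial.C (if (t.2 : ℕ) = F.dep t.1 then lam else 0), ?_⟩
      simp only [if_neg (show ¬ (t.1 = v0 ∧ (t.2 : ℕ) < F.dep v0) from fun h => h1 h.1)]
      rw [map_sub, MvPolynomial.aeval_X, MvPolynomial.aeval_C]
      change xi F v0 lam t - _ = _
      rw [xi, xiN, if_neg h1, xr, dif_pos t.2.2]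
      change X t + C _ - C _ = X t
      rw [add_sub_cancel_right]

end Pool.Agent.Run7.h697.TW
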