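import Pool.Agent.Run7.h697.TW.Chart
import Pool.Agent.Run7.h827.HM.Mixed
import Pool.Agent.R852.BM.Ports
import Pool.Agent.R852.BM.Defs

set_option autoImplicit false
set_option linter.unusedSectionVars false
set_option linter.unusedVariables false

/-! # Products of the ideals of maximal minors along the branches of a forest -/

namespace Pool.Agent.Run7.h697.TW

open MvPowerSeries Pool.Agent.W574.SM Pool.Agent.Y231.RF Pool.Agent.Y228.RR Pool.Agent.TH192.DT
  Pool.Agent.H628R4.TP Pool.Agent.W574.HS Pool.Agent.W574.LM Pool.Agent.R852.BM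
  Pool.Agent.Run7.h827.HM

variable {V T : Type} [Fintype V] [DecidableEq V] [Fintype T] [DecidableEq T] (F : Forest V)

/-- The products of maximal minors, `e v` of them from the matrix of the branch which ends at `v`, for
each node `v`: the generators of the product `∏ v, I_v ^ e v`, where `I_v` is the ideal of the
maximal minors of this matrix. -/
noncomputable def Forest.prods (e : V → ℕ) :
    ((q : Σ v, Fin (e v)) → F.Cols q.1) → MvPolynomial F.Var ℂ :=
  mixFam F.minor e

/-- The order of `∏ v, I_v ^ e v` along the divisor `E_v`: the sum of the `e w` over all the nodes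
`w` whose branch contains `v`. -/
def Forest.ord (e : V → ℕ) (v : V) : ℕ := ∑ w, if F.Le v w then e w else 0

/-- The codimension `n v - dep v` of the centre of the blow-up of `E_v`. -/
def Forest.codim (v : V) : ℕ := F.n v - F.dep v

theorem Forest.codim_pos (v : V) : 0 < F.codim v := by
  have := F.lt v
  rw [Forest.codim]
  omega

/-- The numbers `ν` of the components: `n v - dep v` for `E_v`, and `1` for the strict transforms. -/
def Forest.nu (T : Type) : V ⊕ T → ℕ := Sum.elim F.codim fun _ => 1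

/-- The multiplicities of `∏ t, F_t ^ a t`, `F_t` the general form over the ideal
`∏ v, I_v ^ e t v`. -/
def Forest.mul (e : T → V → ℕ) (a : T → ℕ) : V ⊕ T → ℕ :=
  Sum.elim (fun v => ∑ t, a t * F.ord (e t) v) a

theorem Forest.nu_pos (T : Type) (x : V ⊕ T) : 0 < F.nu T x := by
  rcases x with v | t
  · exact F.codim_pos v
  · exact Nat.one_pos

theorem minor_ne (v : V) : ∃ J, F.minor v J ≠ 0 := by
  obtain ⟨E, -, -, -, -, P, U, hU, h⟩ := chart_exists F v 1 one_ne_zero
  obtain ⟨U1, hU1, h1⟩ := E.attained v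
  refine ⟨E.j0 v, fun h0 => ?_⟩
  rw [h0, map_zero] at h1
  have h2 : (X E.z : MvPowerSeries F.Var ℂ) ^ E.m v ≠ 0 := pow_ne_zero _ (X_ne0 _)
  rcases mul_eq_zero.1 h1.symm with h3 | h3
  · exact h2 h3
  · rw [h3, map_zero] at hU1
    exact hU1 rfl

theorem prods_ne (e : V → ℕ) : ∃ j, F.prods e j ≠ 0 := mixFam_ne _ (minor_ne F) e

/-- a good base point -/
theorem exists_base {σ : Type} (B : σ → Prop) [DecidablePred B] (H : MvPolynomial σ ℂ)
    (hH : MvPolynomial.constantCoeff H ≠ 0) :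
    ∃ lam : ℂ, lam ≠ 0 ∧ MvPolynomial.eval (fun k : σ => if B k then lam else 0) H ≠ 0 := by
  set P : Polynomial ℂ := MvPolynomial.aeval
    (fun k : σ => if B k then (Polynomial.X : Polynomial ℂ) else 0) H with hP
  have hev : ∀ x : ℂ, P.eval x = MvPolynomial.eval (fun k : σ => if B k then x else 0) H := by
    intro x
    rw [hP]
    have h1 : (Polynomial.evalRingHom x).comp (MvPolynomial.aeval
        (fun k : σ => if B k then (Polynomial.X : Polynomial ℂ) else 0) :
          MvPolynomial σ ℂ →ₐ[ℂ] Polynomial ℂ).toRingHom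
        = MvPolynomial.eval (fun k : σ => if B k then x else 0) := by
      ext k
      · simp
      · simp only [AlgHom.toRingHom_eq_coe, RingHom.coe_comp, RingHom.coe_coe, Function.comp_apply,
          MvPolynomial.aeval_X, MvPolynomial.eval_X, Polynomial.coe_evalRingHom]
        split_ifs <;> simp
    exact RingHom.congr_fun h1 H
  have hne : P * Polynomial.X ≠ 0 := by
    refine mul_ne_zero ?_ Polynomial.X_ne_zero
    intro h0
    have h1 := hev 0
    rw [h0, Polynomial.eval_zero] at h1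
    apply hH
    rw [h1]
    simp only [ite_self]
    exact (MvPolynomial.eval_zero' (σ := σ) (R := ℂ) ▸ rfl :
      MvPolynomial.constantCoeff H = MvPolynomial.eval (fun _ => 0) H)
  by_contra hcon
  push Not at hcon
  apply hne
  refine Polynomial.funext fun x => ?_
  rw [Polynomial.eval_mul, Polynomial.eval_X, Polynomial.eval_zero]
  by_cases hx : x = 0
  · rw [hx, mul_zero]
  · rw [hev, hcon x hx, zero_mul]

/-- charts for the products -/
theorem mix_chart_exists (v : V) (e : T → V → ℕ) (a : T → ℕ)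
    (he : ∃ t, a t ≠ 0 ∧ e t v ≠ 0) (H : MvPolynomial F.Var ℂ)
    (hH : MvPolynomial.constantCoeff H ≠ 0) :
    ∃ E : Chart (fun t => F.prods (e t)), E.k = F.n v - F.dep v - 1 ∧
      E.m = (fun t => F.ord (e t) v) ∧ (E.IsRees fun t => a t ≠ 0) ∧
      constantCoeff (MvPolynomial.aeval E.ξ H) ≠ 0 ∧
      ∃ (P : MvPolynomial F.Var ℂ) (U : MvPowerSeries F.Var ℂ), constantCoeff U ≠ 0 ∧
        MvPolynomial.aeval E.ξ P = X E.z * U := by
  obtain ⟨lam, hl, hlH⟩ := exists_base (fun s : F.Var => s.1 ≠ v ∧ (s.2 : ℕ) = F.dep s.1) H hH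
  obtain ⟨E, hk, hm, hR, hcc, P, U, hU, hP⟩ := chart_exists F v lam hl
  have hR' : E.IsRees fun s => ∃ t, a t ≠ 0 ∧ e t s ≠ 0 := by
    obtain ⟨w, hwz, hw0, hwdet, htype⟩ := hR
    refine ⟨w, hwz, hw0, hwdet, fun t ht => ?_⟩
    rcases htype t ht with h | ⟨s, hs, c, hc⟩
    · exact Or.inl h
    · exact Or.inr ⟨s, by rw [hs]; exact he, c, hc⟩
  refine ⟨mixChart E e, hk, ?_, mixChart_isRees E e _ hR', ?_, P, U, hU, hP⟩
  · change (fun t => ∑ s, e t s * E.m s) = _
    rw [hm]
    funext t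
    unfold Forest.ord
    exact Finset.sum_congr rfl fun w _ => by by_cases h : F.Le v w <;> simp [h]
  · change constantCoeff (MvPolynomial.aeval E.ξ H) ≠ 0
    rw [Pool.Agent.TH192.DT.cc_aeval]
    simp only [hcc]
    exact hlH

/-- the roots of the functional equations of the products of the ideals -/
theorem mix_ideal_roots (v : V) (e : T → V → ℕ) (a : T → ℕ)
    (he : ∃ t, a t ≠ 0 ∧ e t v ≠ 0) (b : Polynomial ℂ) (H : MvPolynomial F.Var ℂ)
    (hH : MvPolynomial.constantCoeff H ≠ 0)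
    (hb : Pool.Agent.W574.LM.IsLocEq H
      (prodFam fun q : Σ t, Fin (a t) => F.prods (e q.1)) b)
    (l : ℕ) (hl : l < ∑ t, a t * F.ord (e t) v) :
    b.eval (-((F.codim v : ℂ) + l) / (∑ t, a t * F.ord (e t) v : ℕ)) = 0 := by
  obtain ⟨E, hk, hm, hR, hc, P, U, hU, hP⟩ := mix_chart_exists F v e a he H hH
  have h2 := rees_prod a (fun t => F.prods (e t)) b H hb E hR hc l
    (by rw [Chart.mul, hm]; exact hl) (P ^ l) ⟨U ^ l, by
      rw [map_pow]; exact pow_ne_zero _ hU, by rw [map_pow, hP, mul_pow]⟩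
  rw [Chart.mul, hk, hm] at h2
  have h3 : ((F.n v - F.dep v - 1 : ℕ) : ℂ) + 1 = (F.codim v : ℂ) := by
    have := F.lt v
    rw [← Nat.cast_succ, Forest.codim]
    congr 1
    omega
  rw [h3] at h2
  exact h2

/-- the roots of the Bernstein-Sato polynomials of the products of powers of forms -/
theorem mix_pow_roots (e : T → V → ℕ) (a : T → ℕ) (he : ∀ v, ∃ t, a t ≠ 0 ∧ e t v ≠ 0)
    (b : Polynomial ℂ) (hb : PowData a (fun t => F.prods (e t)) b)
    (x : V ⊕ T) (l : ℕ) (hl : l < F.mul e a x) :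
    b.eval (-((F.nu T x : ℂ) + l) / F.mul e a x) = 0 := by
  rcases x with v | t
  · obtain ⟨t0, ht0, -⟩ := he v
    obtain ⟨H, hH, hHb⟩ := hb.ideal ⟨t0, ht0⟩
    exact mix_ideal_roots F v e a (he v) b H hH hHb l hl
  · have h3 := hb.strict t l hl
    change b.eval (-(((1 : ℕ) : ℂ) + l) / a t) = 0
    rw [Nat.cast_one]
    exact h3

theorem mix_data (e : T → V → ℕ) (a : T → ℕ) (b : Polynomial ℂ)
    (hb : IsBFunction (powProd a fun t => F.prods (e t)) b ∨
      IsLocalBFunction (powProd a fun t => F.prods (e t)) b) :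
    PowData a (fun t => F.prods (e t)) b := by
  rcases hb with hb | hb
  · exact powData_global a _ (fun t => prods_ne F (e t)) b hb
  · exact powData_local a _ (fun t => prods_ne F (e t)) b hb

theorem mix_roots (e : T → V → ℕ) (a : T → ℕ) (he : ∀ v, ∃ t, a t ≠ 0 ∧ e t v ≠ 0)
    (b : Polynomial ℂ) (hb : IsBFunction (powProd a fun t => F.prods (e t)) b ∨
      IsLocalBFunction (powProd a fun t => F.prods (e t)) b)
    (x : V ⊕ T) (l : ℕ) (hl : l < F.mul e a x) :
    b.eval (-((F.nu T x : ℂ) + l) / F.mul e a x) = 0 :=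
  mix_pow_roots F e a he b (mix_data F e a b hb) x l hl

/-- The vectors of multiplicities of the tuple `(F_t)`: the orders of the ideals along `E_v`, and the
unit vectors along the strict transforms. -/
def Forest.vec (e : T → V → ℕ) : V ⊕ T → T → ℕ := mulT fun (v : V) t => F.ord (e t) v

theorem mul_vec (e : T → V → ℕ) (n : T → ℕ) (x : V ⊕ T) :
    F.mul e n x = ∑ t, n t * F.vec e x t := by
  rcases x with i | t
  · rfl
  · change n t = ∑ t', n t' * (Pi.single t 1 : T → ℕ) t'
    rw [Finset.sum_eq_single t]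
    · rw [Pi.single_eq_same, mul_one]
    · intro t' _ ht'
      rw [Pi.single_eq_of_ne ht', mul_zero]
    · intro h; exact absurd (Finset.mem_univ _) h

theorem mix_tuple (e : T → V → ℕ) (he : ∀ v, ∃ t, e t v ≠ 0)
    (χ : Finset (V ⊕ T) → ℤ) (z : T → ℂ) (hz : z ∈ PolarLocus (topM (F.nu T) (F.vec e) χ)) :
    ∃ x, ∑ t, (F.vec e x t : ℂ) * z t + (F.nu T x : ℂ) = 0 ∧
      ∀ n : T → ℕ, (∀ t, 0 < n t) → 0 < ∑ t, n t * F.vec e x t ∧
        ∀ b : Polynomial ℂ, IsBFunction (powProd n fun t => F.prods (e t)) b →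
          ∀ l : ℕ, l < ∑ t, n t * F.vec e x t →
            b.eval (-((F.nu T x : ℂ) + l) / (∑ t, n t * F.vec e x t : ℕ)) = 0 := by
  obtain ⟨x, hx⟩ := polar_topM _ (F.nu_pos T) _ χ z hz
  refine ⟨x, hx, fun n hn => ⟨?_, fun b hb l hl => ?_⟩⟩
  · rcases Nat.eq_zero_or_pos (∑ t, n t * F.vec e x t) with h0 | h0
    · exfalso
      have h1 : ∀ t, F.vec e x t = 0 := fun t =>
        (Nat.mul_eq_zero.1 ((Finset.sum_eq_zero_iff.1 h0) t (Finset.mem_univ t))).resolve_left
          (hn t).ne'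
      have h2 : ∑ t, (F.vec e x t : ℂ) * z t = 0 :=
        Finset.sum_eq_zero fun t _ => by rw [h1 t, Nat.cast_zero, zero_mul]
      rw [h2, zero_add] at hx
      exact (F.nu_pos T x).ne' (Nat.cast_eq_zero.1 hx)
    · exact h0
  · rw [← mul_vec] at hl ⊢
    refine mix_roots F e n (fun v => ?_) b (Or.inl hb) x l hl
    obtain ⟨t, ht⟩ := he v
    exact ⟨t, (hn t).ne', ht⟩

/-- the set of the pairs for the forms over products of the ideals -/
theorem mix_set (e : T → V → ℕ) (a : T → ℕ) (he : ∀ v, ∃ t, a t ≠ 0 ∧ e t v ≠ 0) :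
    ∃ 𝒮 : Finset (ℤ × ℤ), (∀ (R : Type) [CommRing R] (u : Rˣ)
        (χ : Finset {x // 0 < F.mul e a x} → R),
        dlZ u (F.nu T) (F.mul e a) χ ∈ ratU u (𝒮 : Set (ℤ × ℤ))) ∧
      ∀ q ∈ 𝒮, q.1 < 0 ∧ 0 < q.2 ∧ ∀ b : Polynomial ℂ,
        (IsBFunction (powProd a fun t => F.prods (e t)) b ∨
          IsLocalBFunction (powProd a fun t => F.prods (e t)) b) →
        b.eval ((q.1 : ℂ) / q.2) = 0 := by
  refine ⟨pairs (F.nu T) (F.mul e a), fun R _ u χ => dlZ_mem u _ _ χ, fun q hq => ?_⟩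
  have h2 := pairs_sign _ _ (F.nu_pos T) q hq
  refine ⟨h2.1, h2.2, fun b hb => ?_⟩
  exact pairs_roots _ _ (F.nu_pos T) b (fun x l hl => mix_roots F e a he b hb x l hl) q hq

/-- the motivic zeta functions and the root pairs -/
theorem mix_mot (e : T → V → ℕ) (a : T → ℕ) (he : ∀ v, ∃ t, a t ≠ 0 ∧ e t v ≠ 0)
    (R : Type) [CommRing R] (u : Rˣ) (χ : Finset {x // 0 < F.mul e a x} → R)
    (b : Polynomial ℂ) (hb : IsBFunction (powProd a fun t => F.prods (e t)) b ∨
      IsLocalBFunction (powProd a fun t => F.prods (e t)) b) :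
    dlZ u (F.nu T) (F.mul e a) χ ∈ ratU u (RootPairs b) := by
  refine ratU_mono u (fun q hq => ?_) (dlZ_mem u _ _ χ)
  have h2 := pairs_sign _ _ (F.nu_pos T) q hq
  exact ⟨h2.1, h2.2, pairs_roots _ _ (F.nu_pos T) b
    (fun x l hl => mix_roots F e a he b hb x l hl) q hq⟩

/-- one ideal -/
theorem one_ideal_roots (e : V → ℕ) (he : ∀ v, e v ≠ 0) (b : Polynomial ℂ)
    (H : MvPolynomial F.Var ℂ) (hH : MvPolynomial.constantCoeff H ≠ 0)
    (hb : Pool.Agent.W574.LM.IsLocEq H (F.prods e) b) (v : V) (l : ℕ) (hl : l < F.ord e v) :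
    b.eval (-((F.codim v : ℂ) + l) / F.ord e v) = 0 := by
  obtain ⟨lam, hl0, hlH⟩ := exists_base (fun s : F.Var => s.1 ≠ v ∧ (s.2 : ℕ) = F.dep s.1) H hH
  obtain ⟨E, hk, hm, hR, hcc, P, U, hU, hP⟩ := chart_exists F v lam hl0
  have h1 : constantCoeff (MvPolynomial.aeval E.ξ H) ≠ 0 := by
    rw [Pool.Agent.TH192.DT.cc_aeval]
    simp only [hcc]
    exact hlH
  have hR' : E.IsRees fun s => e s ≠ 0 := by
    obtain ⟨w, hwz, hw0, hwdet, htype⟩ := hR
    refine ⟨w, hwz, hw0, hwdet, fun t ht => ?_⟩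
    rcases htype t ht with h | ⟨s, hs, c, hc⟩
    · exact Or.inl h
    · exact Or.inr ⟨s, he s, c, hc⟩
  have hord : ∑ w, e w * (if F.Le v w then 1 else 0) = F.ord e v :=
    Finset.sum_congr rfl fun w _ => by by_cases h : F.Le v w <;> simp [h]
  have h2 := rees_prod e F.minor b H hb E hR' h1 l
    (by rw [Chart.mul, hm]; simp only; rw [hord]; exact hl) (P ^ l) ⟨U ^ l, by
      rw [map_pow]; exact pow_ne_zero _ hU, by rw [map_pow, hP, mul_pow]⟩
  rw [Chart.mul, hk, hm] at h2
  simp only at h2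
  rw [hord] at h2
  have h3 : ((F.n v - F.dep v - 1 : ℕ) : ℂ) + 1 = (F.codim v : ℂ) := by
    have := F.lt v
    rw [← Nat.cast_succ, Forest.codim]
    congr 1
    omega
  rw [h3] at h2
  exact h2

end Pool.Agent.Run7.h697.TW
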