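import Pool.Agent.TH192.PA.YInt
import Pool.Agent.TH192.PA.Norm
import Pool.Agent.W574.SM.DetSort

set_option autoImplicit false
set_option linter.unusedSectionVars false
set_option linter.unusedVariables false

/-! # Maximal minors of a `p`-adic matrix with one more row -/

namespace Pool.Agent.Run7.h697.TW

open Pool.Agent.TH192.PA
open scoped NNReal

variable {q : ℕ} [Fact q.Prime]

/-- the maximum of the norms of the maximal minors of a `k × n` matrix, given by an array -/
noncomputable def nn (k n : ℕ) (A : ℕ → ℕ → ℤ_[q]) : ℝ≥0 :=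
  Finset.univ.sup fun J : Fin k → Fin n => ‖(Matrix.of fun i j : Fin k => A i (J j)).det‖₊

theorem le_nn {k n : ℕ} (A : ℕ → ℕ → ℤ_[q]) (J : Fin k → Fin n) :
    ‖(Matrix.of fun i j : Fin k => A i (J j)).det‖₊ ≤ nn k n A :=
  Finset.le_sup (f := fun J : Fin k → Fin n => ‖(Matrix.of fun i j : Fin k => A i (J j)).det‖₊)
    (Finset.mem_univ J)

theorem nn_congr {k n : ℕ} {A B : ℕ → ℕ → ℤ_[q]} (h : ∀ i l, i < k → l < n → A i l = B i l) :
    nn k n A = nn k n B := by
  unfold nn
  refine Finset.sup_congr rfl fun J _ => ?_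
  congr 2
  ext1 i j
  rw [Matrix.of_apply, Matrix.of_apply]
  exact h i (J j) i.2 (J j).2

theorem nn_le_one {k n : ℕ} (A : ℕ → ℕ → ℤ_[q]) : nn k n A ≤ 1 :=
  Finset.sup_le fun J _ => PadicInt.norm_le_one _

theorem nn_zero (n : ℕ) (A : ℕ → ℕ → ℤ_[q]) : nn 0 n A = 1 := by
  refine le_antisymm (nn_le_one A) ?_
  have h := le_nn (k := 0) (n := n) A (fun i => i.elim0)
  rw [Matrix.det_isEmpty, nnnorm_one] at h
  exact h

/-- only increasing choices of columns matter -/
theorem nn_sorted {k n : ℕ} (A : ℕ → ℕ → ℤ_[q]) :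
    (Finset.univ.sup fun J : Fin k ↪o Fin n => ‖(Matrix.of fun i j : Fin k => A i (J j)).det‖₊)
      = nn k n A := by
  refine le_antisymm (Finset.sup_le fun J _ => le_nn A J) (Finset.sup_le fun J _ => ?_)
  by_cases hJ : Function.Injective J
  · obtain ⟨r0, π, hr⟩ := Pool.Agent.W574.SM.exists_sort J hJ
    have h1 : (Matrix.of fun i j : Fin k => A i (J j))
        = (Matrix.of fun i j : Fin k => A i (r0 j)).submatrix id π := by
      ext1 i j
      rw [Matrix.submatrix_apply, Matrix.of_apply, Matrix.of_apply, hr j]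
      rfl
    have h2 : ‖(Matrix.of fun i j : Fin k => A i (J j)).det‖₊
        = ‖(Matrix.of fun i j : Fin k => A i (r0 j)).det‖₊ := by
      rw [h1, Matrix.det_permute', nnnorm_mul]
      rcases Int.units_eq_one_or (Equiv.Perm.sign π) with h | h <;> rw [h] <;> simp
    rw [h2]
    exact Finset.le_sup (f := fun J : Fin k ↪o Fin n =>
      ‖(Matrix.of fun i j : Fin k => A i (J j)).det‖₊) (Finset.mem_univ r0)
  · rw [Function.not_injective_iff] at hJ
    obtain ⟨i, j, hij, hne⟩ := hJ
    have h1 : (Matrix.of fun i j : Fin k => A i (J j)).det = 0 := by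
      rw [← Matrix.det_transpose]
      refine Matrix.det_zero_of_row_eq hne ?_
      funext l
      simp only [Matrix.transpose_apply, Matrix.of_apply, hij]
    rw [h1, nnnorm_zero]
    exact zero_le

section Step

variable {c n : ℕ} (A : ℕ → ℕ → ℤ_[q])

/-- the expansion of a minor along the new row `r` -/
noncomputable def Lx (J : Fin (c + 1) → Fin n) (r : ℕ → ℤ_[q]) : ℤ_[q] :=
  ∑ j : Fin (c + 1), (-1) ^ (c + (j : ℕ)) * r (J j) *
    (Matrix.of fun a b : Fin c => A a (J (j.succAbove b))).det

theorem det_new (J : Fin (c + 1) → Fin n) (r : ℕ → ℤ_[q]) :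
    (Matrix.of fun i j : Fin (c + 1) => Function.update A c r i (J j)).det = Lx A J r := by
  rw [Matrix.det_succ_row _ (Fin.last c), Lx]
  refine Finset.sum_congr rfl fun j _ => ?_
  rw [Matrix.of_apply, Fin.val_last, Function.update_self]
  congr 2
  ext1 a b
  rw [Matrix.submatrix_apply, Matrix.of_apply, Matrix.of_apply, Fin.succAbove_last_apply,
    Fin.val_castSucc, Function.update_of_ne (by have := a.2; omega)]

theorem Lx_row (J : Fin (c + 1) → Fin n) (i : Fin c) : Lx A J (A i) = 0 := by
  rw [← det_new]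
  refine Matrix.det_zero_of_row_eq (i := i.castSucc) (j := Fin.last c) ?_ ?_
  · intro h
    have h1 := congrArg Fin.val h
    rw [Fin.val_castSucc, Fin.val_last] at h1
    have := i.2
    omega
  · funext j
    rw [Matrix.of_apply, Matrix.of_apply, Fin.val_last, Fin.val_castSucc, Function.update_self,
      Function.update_of_ne (by have := i.2; omega)]

theorem Lx_smul_sum {ι : Type} [Fintype ι] (J : Fin (c + 1) → Fin n) (f : ι → ℤ_[q])
    (r : ι → ℕ → ℤ_[q]) : Lx A J (fun l => ∑ m, f m * r m l) = ∑ m, f m * Lx A J (r m) := by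
  unfold Lx
  simp only [Finset.mul_sum, Finset.sum_mul]
  rw [Finset.sum_comm]
  refine Finset.sum_congr rfl fun m _ => Finset.sum_congr rfl fun j _ => ?_
  ring

theorem Lx_sub (J : Fin (c + 1) → Fin n) (r r' : ℕ → ℤ_[q]) :
    Lx A J (fun l => r l - r' l) = Lx A J r - Lx A J r' := by
  unfold Lx
  rw [← Finset.sum_sub_distrib]
  refine Finset.sum_congr rfl fun j _ => ?_
  ring

/-- **One more row.** If the maximal minors of the first `c` rows are not all zero, there are columns
`J0` and a matrix `lam` such that the norm of the maximal minors with the new row `r` is the product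
of the norm for the first `c` rows and of the norm of the vector of the
`r l - ∑ m, lam l m * r (J0 m)`, which is `0` for the `l` in the range of `J0`. -/
theorem step (h0 : nn c n A ≠ 0) : ∃ (J0 : Fin c → Fin n) (lam : Fin n → Fin c → ℤ_[q]),
    Function.Injective J0 ∧ (∀ m' m, lam (J0 m') m = if m' = m then 1 else 0) ∧
    ∀ r : ℕ → ℤ_[q], nn (c + 1) n (Function.update A c r)
      = nn c n A * Finset.univ.sup fun l : Fin n => ‖r l - ∑ m, lam l m * r (J0 m)‖₊ := by
  have hne : Nonempty (Fin c → Fin n) := by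
    by_contra h
    apply h0
    unfold nn
    have : IsEmpty (Fin c → Fin n) := not_nonempty_iff.1 h
    rw [Finset.univ_eq_empty, Finset.sup_empty]
    rfl
  obtain ⟨J0, -, hJ0⟩ := Finset.exists_max_image Finset.univ
    (fun J : Fin c → Fin n => ‖(Matrix.of fun i j : Fin c => A i (J j)).det‖₊)
    Finset.univ_nonempty
  set D : ℤ_[q] := (Matrix.of fun i j : Fin c => A i (J0 j)).det with hD
  have hM : nn c n A = ‖D‖₊ := le_antisymm (Finset.sup_le hJ0) (le_nn A J0)
  have hD0 : D ≠ 0 := by
    intro h
    apply h0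
    rw [hM, h, nnnorm_zero]
  have hinj : Function.Injective J0 := by
    intro a b hab
    by_contra hne
    apply hD0
    rw [hD, ← Matrix.det_transpose]
    refine Matrix.det_zero_of_row_eq hne ?_
    funext l
    simp only [Matrix.transpose_apply, Matrix.of_apply, hab]
  have hex : ∀ (l : Fin n) (m : Fin c), ∃ x : ℤ_[q],
      (Matrix.of fun i j : Fin c => A i (Function.update J0 m l j)).det = D * x := by
    intro l m
    exact dvd_of_norm_le q _ _ (hJ0 _ (Finset.mem_univ _))
  choose lam hlam using hex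
  have hcr : ∀ (l : Fin n) (m : Fin c), D * lam l m
      = ∑ i : Fin c, (Matrix.of fun i j : Fin c => A i (J0 j)).adjugate m i * A i l := by
    intro l m
    rw [← hlam]
    have h1 : (Matrix.of fun i j : Fin c => A i (Function.update J0 m l j))
        = (Matrix.of fun i j : Fin c => A i (J0 j)).updateCol m fun i => A i l := by
      ext1 i j
      rw [Matrix.updateCol_apply, Matrix.of_apply, Matrix.of_apply]
      by_cases h : j = m
      · rw [if_pos h, h, Function.update_self]
      · rw [if_neg h, Function.update_of_ne h]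
    rw [h1, ← Matrix.cramer_apply, Matrix.cramer_eq_adjugate_mulVec]
    rfl
  have hdelta : ∀ m' m, lam (J0 m') m = if m' = m then 1 else 0 := by
    intro m' m
    apply mul_left_cancel₀ hD0
    rw [hcr]
    have h1 := congrFun (congrFun (Matrix.adjugate_mul (Matrix.of fun i j : Fin c => A i (J0 j))) m)
      m'
    rw [Matrix.mul_apply] at h1
    simp only [Matrix.of_apply] at h1
    rw [h1, Matrix.smul_apply, Matrix.one_apply, smul_eq_mul]
    by_cases h : m' = m
    · rw [if_pos h, if_pos h.symm]
    · rw [if_neg h, if_neg fun h2 => h h2.symm]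
  refine ⟨J0, lam, hinj, hdelta, fun r => ?_⟩
  -- the coordinates of the columns, as arrays
  set lamN : Fin c → ℕ → ℤ_[q] := fun m l => if h : l < n then lam ⟨l, h⟩ m else 0 with hlamN
  have hzero : ∀ (J : Fin (c + 1) → Fin n) (m : Fin c), Lx A J (lamN m) = 0 := by
    intro J m
    apply mul_left_cancel₀ hD0
    rw [mul_zero]
    have h1 : D * Lx A J (lamN m) = Lx A J (fun l => ∑ i : Fin c,
        (Matrix.of fun i j : Fin c => A i (J0 j)).adjugate m i * A i l) := by
      unfold Lx
      rw [Finset.mul_sum]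
      refine Finset.sum_congr rfl fun j _ => ?_
      have h3 : (∑ i : Fin c, (Matrix.of fun i j : Fin c => A i (J0 j)).adjugate m i * A i (J j))
          = D * lamN m (J j) := by
        rw [← hcr, hlamN]
        simp only [Fin.is_lt, dite_true, Fin.eta]
      simp only [h3]
      ring
    rw [h1, Lx_smul_sum]
    refine Finset.sum_eq_zero fun i _ => ?_
    rw [Lx_row, mul_zero]
  set y : ℕ → ℤ_[q] := fun l => r l - ∑ m, r (J0 m) * lamN m l with hy
  have hyl : ∀ l : Fin n, y l = r l - ∑ m, lam l m * r (J0 m) := by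
    intro l
    rw [hy, hlamN]
    simp only [Fin.is_lt, dite_true, Fin.eta]
    congr 1
    exact Finset.sum_congr rfl fun m _ => mul_comm _ _
  have hLy : ∀ J : Fin (c + 1) → Fin n, Lx A J r = Lx A J y := by
    intro J
    rw [hy, Lx_sub, Lx_smul_sum]
    rw [Finset.sum_eq_zero fun m _ => by rw [hzero, mul_zero], sub_zero]
  have hy0 : ∀ m, y (J0 m) = 0 := by
    intro m
    rw [hyl, Finset.sum_eq_single m]
    · rw [hdelta, if_pos rfl, one_mul, sub_self]
    · intro m' _ hm'
      rw [hdelta, if_neg fun h => hm' h.symm, zero_mul]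
    · intro h; exact absurd (Finset.mem_univ _) h
  have hsup : (Finset.univ.sup fun l : Fin n => ‖r l - ∑ m, lam l m * r (J0 m)‖₊)
      = Finset.univ.sup fun l : Fin n => ‖y l‖₊ :=
    Finset.sup_congr rfl fun l _ => by rw [hyl]
  rw [hsup, hM]
  refine le_antisymm (Finset.sup_le fun J _ => ?_) ?_
  · rw [det_new, hLy]
    unfold Lx
    have h1 : ∀ j : Fin (c + 1), ‖(-1 : ℤ_[q]) ^ (c + (j : ℕ)) * y (J j) *
        (Matrix.of fun a b : Fin c => A a (J (j.succAbove b))).det‖ ≤
        ((‖D‖₊ * Finset.univ.sup fun l : Fin n => ‖y l‖₊ : ℝ≥0) : ℝ) := by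
      intro j
      rw [norm_mul, norm_mul, norm_pow, norm_neg, norm_one, one_pow, one_mul, mul_comm,
        NNReal.coe_mul]
      refine mul_le_mul ?_ ?_ (norm_nonneg _) (NNReal.coe_nonneg _)
      · exact hJ0 (fun b => J (j.succAbove b)) (Finset.mem_univ _)
      · exact Finset.le_sup (f := fun l : Fin n => ‖y l‖₊) (Finset.mem_univ (J j))
    have h2 := (ballI q (‖D‖₊ * Finset.univ.sup fun l : Fin n => ‖y l‖₊)).sum_mem
      (t := Finset.univ) (f := fun j : Fin (c + 1) => (-1 : ℤ_[q]) ^ (c + (j : ℕ)) * y (J j) *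
        (Matrix.of fun a b : Fin c => A a (J (j.succAbove b))).det) (fun j _ => h1 j)
    exact h2
  · by_cases hn : (Finset.univ : Finset (Fin n)).Nonempty
    · obtain ⟨l, -, hl⟩ := Finset.exists_max_image Finset.univ (fun l : Fin n => ‖y l‖₊) hn
      have h1 : (Finset.univ.sup fun l : Fin n => ‖y l‖₊) = ‖y l‖₊ :=
        le_antisymm (Finset.sup_le hl)
          (Finset.le_sup (f := fun l : Fin n => ‖y l‖₊) (Finset.mem_univ l))
      rw [h1]
      refine le_trans ?_ (le_nn (k := c + 1) (Function.update A c r)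
        (Fin.snoc (α := fun _ => Fin n) J0 l))
      rw [det_new, hLy, Lx, Finset.sum_eq_single (Fin.last c)]
      · rw [nnnorm_mul, nnnorm_mul, nnnorm_pow, nnnorm_neg, nnnorm_one, one_pow, one_mul, mul_comm]
        refine le_of_eq ?_
        congr 1
        · rw [Fin.snoc_last]
        · rw [hD]
          congr 2
          ext1 a b
          rw [Matrix.of_apply, Matrix.of_apply, Fin.succAbove_last_apply, Fin.snoc_castSucc]
      · intro j _ hj
        obtain ⟨j', rfl⟩ := Fin.exists_castSucc_eq.2 hj
        rw [Fin.snoc_castSucc, hy0, mul_zero, zero_mul]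
      · intro h; exact absurd (Finset.mem_univ _) h
    · rw [Finset.not_nonempty_iff_eq_empty] at hn
      rw [hn, Finset.sup_empty]
      simp

theorem nn_succ_le : nn (c + 1) n A ≤ nn c n A := by
  have h1 : nn (c + 1) n A = nn (c + 1) n (Function.update A c (A c)) := by
    rw [Function.update_eq_self]
  rw [h1]
  refine Finset.sup_le fun J _ => ?_
  rw [det_new]
  unfold Lx
  have h2 : ∀ j : Fin (c + 1), ‖(-1 : ℤ_[q]) ^ (c + (j : ℕ)) * A c (J j) *
      (Matrix.of fun a b : Fin c => A a (J (j.succAbove b))).det‖ ≤ ((nn c n A : ℝ≥0) : ℝ) := by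
    intro j
    rw [norm_mul, norm_mul, norm_pow, norm_neg, norm_one, one_pow, one_mul]
    refine (mul_le_of_le_one_left (norm_nonneg _) (PadicInt.norm_le_one _)).trans ?_
    exact le_nn A fun b => J (j.succAbove b)
  exact (ballI q (nn c n A)).sum_mem
    (t := Finset.univ) (f := fun j : Fin (c + 1) => (-1 : ℤ_[q]) ^ (c + (j : ℕ)) * A c (J j) *
      (Matrix.of fun a b : Fin c => A a (J (j.succAbove b))).det) (fun j _ => h2 j)

end Step

end Pool.Agent.Run7.h697.TW
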