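import Pool.Agent.Run7.h697.TW.PInt
import Pool.Agent.R852.MX.PAdic

set_option autoImplicit false
set_option linter.unusedSectionVars false
set_option linter.unusedVariables false

/-! # The p-adic zeta functions of the forms over products of the ideals of a forest -/

namespace Pool.Agent.Run7.h697.TW

open MeasureTheory MvPolynomial Pool.Agent.W427.SMC Pool.Agent.TH192.PA Pool.Agent.TH192.DT
open Pool.Agent.R852.MX (sup_prod)
open scoped ENNReal NNReal

attribute [local instance] msZ bsZ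

variable {V T : Type} [Fintype V] [DecidableEq V] [Fintype T] [DecidableEq T] (F : Forest V)

/-- The `j`-th coordinate of the vector of the node `v` (and `0` if there is no such coordinate). -/
noncomputable def Forest.coordZ (v : V) (j : ℕ) : MvPolynomial F.Var ℤ :=
  if h : j < F.n v then X ⟨v, ⟨j, h⟩⟩ else 0

/-- The maximal minors of the matrix whose rows are the vectors of the nodes
`anc v 0, …, anc v (dep v) = v` of the branch which ends at `v`. -/
noncomputable def Forest.minorZ (v : V) (J : F.Cols v) : MvPolynomial F.Var ℤ :=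
  (Matrix.of fun i j : Fin (F.dep v + 1) => F.coordZ (F.anc v i)
    ((show Fin (F.dep v + 1) ↪o Fin (F.n v) from J) j)).det

/-- The polynomial `∏ t, F_t ^ a t` with `F_t = ∑_J y_{t,J} ∏_q M_{q,J}(x)`: the form over the product
`∏ v, I_v ^ e t v`, where `I_v` is the ideal of the maximal minors of the matrix of the branch which
ends at `v`. A `J` chooses `e t v` maximal minors of this matrix for each node `v`; the `y_{t,J}` are
further variables. -/
noncomputable def Forest.formZ (e : T → V → ℕ) (a : T → ℕ) :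
    MvPolynomial ((Σ t, ((q : Σ v, Fin (e t v)) → F.Cols q.1)) ⊕ F.Var) ℤ :=
  ∏ t, (∑ J : (q : Σ v, Fin (e t v)) → F.Cols q.1,
    X (Sum.inl ⟨t, J⟩) * rename Sum.inr (∏ q, F.minorZ q.1 (J q))) ^ a t

theorem map_coordZ (v : V) (j : ℕ) : map (Int.castRingHom ℂ) (F.coordZ v j) = F.coord v j := by
  unfold Forest.coordZ Forest.coord
  split_ifs
  · rw [map_X]
  · rw [map_zero]

theorem map_minorZ (v : V) (J : F.Cols v) :
    map (Int.castRingHom ℂ) (F.minorZ v J) = F.minor v J := by
  unfold Forest.minorZ Forest.minor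
  rw [RingHom.map_det]
  congr 1
  ext1 i j
  simp only [RingHom.mapMatrix_apply, Matrix.map_apply, Matrix.of_apply]
  exact map_coordZ F _ _

theorem map_formZ (e : T → V → ℕ) (a : T → ℕ) :
    map (Int.castRingHom ℂ) (F.formZ e a) = powProd a fun t => F.prods (e t) := by
  unfold Forest.formZ powProd blockForm
  rw [map_prod]
  refine Finset.prod_congr rfl fun t _ => ?_
  rw [map_pow, map_sum]
  congr 1
  refine Finset.sum_congr rfl fun J _ => ?_
  rw [map_mul, map_X, map_rename, map_prod]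
  congr 2
  exact Finset.prod_congr rfl fun q _ => map_minorZ F _ _

theorem formZ_ne (e : T → V → ℕ) (a : T → ℕ) : F.formZ e a ≠ 0 := by
  intro h
  have h1 := map_formZ F e a
  rw [h, map_zero] at h1
  exact powProd_ne a (fun t => F.prods (e t)) (fun t => prods_ne F (e t)) h1.symm

section padic

variable {q : ℕ} [Fact q.Prime]

theorem aeval_coordZ (x : F.Var → ℤ_[q]) (v : V) (j : ℕ) :
    aeval x (F.coordZ v j) = xv F x v j := by
  unfold Forest.coordZ xv
  split_ifs
  · rw [aeval_X]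
  · rw [map_zero]

theorem sup_minorZ (v : V) (x : F.Var → ℤ_[q]) :
    (Finset.univ.sup fun J : F.Cols v => ‖aeval x (F.minorZ v J)‖₊) = nb F v (F.dep v + 1) x := by
  unfold nb
  rw [← nn_sorted]
  have h1 : ∀ J : F.Cols v, ‖aeval x (F.minorZ v J)‖₊ =
      ‖(Matrix.of fun i j : Fin (F.dep v + 1) => xv F x (F.anc v i)
        ((show Fin (F.dep v + 1) ↪o Fin (F.n v) from J) j)).det‖₊ := by
    intro J
    unfold Forest.minorZ
    rw [AlgHom.map_det]
    congr 2
    ext1 i j
    simp only [AlgHom.mapMatrix_apply, Matrix.map_apply, Matrix.of_apply]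
    exact aeval_coordZ F x _ _
  simp only [h1]
  rfl

theorem cols_nonempty (v : V) : Nonempty (F.Cols v) :=
  ⟨Fin.castLEOrderEmb (F.lt v)⟩

theorem aeval_formZ (e : T → V → ℕ) (a : T → ℕ)
    (z : (Σ t, ((q : Σ v, Fin (e t v)) → F.Cols q.1)) ⊕ F.Var → ℤ_[q]) :
    aeval z (F.formZ e a) =
      ∏ t, (∑ J : (q : Σ v, Fin (e t v)) → F.Cols q.1, z (Sum.inl ⟨t, J⟩) *
        ∏ r, aeval (z ∘ Sum.inr) (F.minorZ r.1 (J r))) ^ a t := by
  unfold Forest.formZ
  rw [map_prod]
  refine Finset.prod_congr rfl fun t _ => ?_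
  rw [map_pow, map_sum]
  congr 1
  refine Finset.sum_congr rfl fun j _ => ?_
  rw [map_mul, aeval_X, aeval_rename, map_prod]

theorem cont_aeval {W : Type} [Fintype W] (f : MvPolynomial W ℤ) :
    Continuous fun z : W → ℤ_[q] => aeval z f := by
  have : (fun z : W → ℤ_[q] => aeval z f) =
      fun z => eval z (map (Int.castRingHom ℤ_[q]) f) := by
    funext z
    rw [aeval_def, eval_map]
    rfl
  rw [this]
  exact MvPolynomial.continuous_eval _

theorem prod_sigma_pow (e : V → ℕ) (g : V → ℝ≥0) :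
    (∏ r : Σ v, Fin (e v), g r.1) = ∏ v, g v ^ e v := by
  rw [Fintype.prod_sigma]
  refine Finset.prod_congr rfl fun v _ => ?_
  change (∏ _y : Fin (e v), g v) = _
  rw [Finset.prod_const, Finset.card_univ, Fintype.card_fin]

theorem mul_inl (e : T → V → ℕ) (a : T → ℕ) (u : V) (s : ℝ) :
    (∑ v, if F.Le u v then ((∑ t, a t * e t v : ℕ) : ℝ) * s else 0)
      = ((F.mul e a (Sum.inl u) : ℕ) : ℝ) * s := by
  have h1 : F.mul e a (Sum.inl u) = ∑ v, if F.Le u v then ∑ t, a t * e t v else 0 := by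
    change ∑ t, a t * (∑ v, if F.Le u v then e t v else 0) = _
    simp only [Finset.mul_sum]
    rw [Finset.sum_comm]
    refine Finset.sum_congr rfl fun v _ => ?_
    split_ifs with h
    · rfl
    · exact Finset.sum_eq_zero fun t _ => mul_zero _
  rw [h1, Nat.cast_sum, Finset.sum_mul]
  refine Finset.sum_congr rfl fun v _ => ?_
  split_ifs
  · rfl
  · rw [Nat.cast_zero, zero_mul]

/-- **The zeta function of the form.** -/
theorem igusa_eqF (e : T → V → ℕ) (a : T → ℕ) (s : ℝ) (hs : 0 ≤ s) :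
    ∫⁻ z : (Σ t, ((q : Σ v, Fin (e t v)) → F.Cols q.1)) ⊕ F.Var → ℤ_[q],
        tau q s (aeval z (F.formZ e a))
        ∂(hm q ((Σ t, ((q : Σ v, Fin (e t v)) → F.Cols q.1)) ⊕ F.Var)) =
      (∏ u, psi q (F.codim u) ((F.mul e a (Sum.inl u) : ℝ) * s)) *
        ∏ t, phi q ((a t : ℝ) * s) := by
  classical
  have hc := cont_aeval (q := q) (F.formZ e a)
  have hmz : Measurable fun z : (Σ t, ((q : Σ v, Fin (e t v)) → F.Cols q.1)) ⊕ F.Var → ℤ_[q] =>
      tau q s (aeval z (F.formZ e a)) := ((tau_cont q s hs).comp hc).measurable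
  rw [lintegral_sum q _ hmz]
  set σ : V → ℝ := fun v => ((∑ t, a t * e t v : ℕ) : ℝ) * s with hσ
  have hσ0 : ∀ v, 0 ≤ σ v := fun v => by positivity
  have h1 : ∀ x : F.Var → ℤ_[q],
      ∫⁻ y : (Σ t, ((q : Σ v, Fin (e t v)) → F.Cols q.1)) → ℤ_[q],
      tau q s (aeval (Sum.elim y x) (F.formZ e a))
        ∂(hm q (Σ t, ((q : Σ v, Fin (e t v)) → F.Cols q.1))) =
      (∏ v, ((nb F v (F.dep v + 1) x : ℝ≥0) : ℝ≥0∞) ^ σ v) *
        ∏ t, phi q ((a t : ℝ) * s) := by
    intro x
    have h2 := y_int q (fun t (J : (q : Σ v, Fin (e t v)) → F.Cols q.1) =>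
        ∏ r, aeval x (F.minorZ r.1 (J r)))
      (fun t => by
        have : ∀ r : Σ v, Fin (e t v), Nonempty (F.Cols r.1) := fun r => cols_nonempty F r.1
        exact inferInstance) (fun t => (a t : ℝ) * s) (fun t => by positivity)
    have h5 : (∏ v, ((nb F v (F.dep v + 1) x : ℝ≥0) : ℝ≥0∞) ^ σ v) =
        ∏ t, ((Finset.univ.sup fun J : (q : Σ v, Fin (e t v)) → F.Cols q.1 =>
          ‖∏ r, aeval x (F.minorZ r.1 (J r))‖₊ : ℝ≥0) : ℝ≥0∞) ^ ((a t : ℝ) * s) := by
      have h6 : ∀ t, (Finset.univ.sup fun J : (q : Σ v, Fin (e t v)) → F.Cols q.1 =>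
          ‖∏ r, aeval x (F.minorZ r.1 (J r))‖₊) =
          ∏ v, nb F v (F.dep v + 1) x ^ e t v := by
        intro t
        have h7 := sup_prod (fun r : Σ v, Fin (e t v) => cols_nonempty F r.1)
          (fun (r : Σ v, Fin (e t v)) (j : F.Cols r.1) => ‖aeval x (F.minorZ r.1 j)‖₊)
        have h8 : ∀ J : (q : Σ v, Fin (e t v)) → F.Cols q.1,
            ‖∏ r, aeval x (F.minorZ r.1 (J r))‖₊ =
            ∏ r, ‖aeval x (F.minorZ r.1 (J r))‖₊ := fun J => nnnorm_prod _ _
        simp only [h8]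
        rw [h7]
        simp only [sup_minorZ]
        exact prod_sigma_pow (e t) fun v => nb F v (F.dep v + 1) x
      simp only [h6]
      have h9 : ∀ t, ((∏ v, nb F v (F.dep v + 1) x ^ e t v : ℝ≥0) : ℝ≥0∞) ^ ((a t : ℝ) * s)
          = ∏ v, ((nb F v (F.dep v + 1) x : ℝ≥0) : ℝ≥0∞) ^ (((a t * e t v : ℕ) : ℝ) * s) := by
        intro t
        rw [ENNReal.ofNNReal_finsetProd, ← ENNReal.prod_rpow_of_nonneg (by positivity)]
        refine Finset.prod_congr rfl fun v _ => ?_
        rw [ENNReal.coe_pow, ← ENNReal.rpow_natCast, ← ENNReal.rpow_mul]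
        congr 1
        push_cast
        ring
      simp only [h9]
      rw [Finset.prod_comm]
      refine Finset.prod_congr rfl fun v _ => ?_
      rw [← rpow_sum _ _ _ (fun t _ => by positivity)]
      congr 1
      rw [hσ]
      push_cast
      rw [Finset.sum_mul]
    rw [h5, ← Finset.prod_mul_distrib]
    refine Eq.trans (lintegral_congr fun y => ?_) h2
    rw [aeval_formZ, tau_prod]
    refine Finset.prod_congr rfl fun t _ => ?_
    rw [tau_pow']
    rfl
  have h3 : ∀ x : F.Var → ℤ_[q],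
      ∫⁻ y : (Σ t, ((q : Σ v, Fin (e t v)) → F.Cols q.1)) → ℤ_[q],
      (fun z : (Σ t, ((q : Σ v, Fin (e t v)) → F.Cols q.1)) ⊕ F.Var → ℤ_[q] =>
        tau q s (aeval z (F.formZ e a)))
        (Sum.elim y x) ∂(hm q (Σ t, ((q : Σ v, Fin (e t v)) → F.Cols q.1))) = _ := h1
  have h4 : Measurable fun x : F.Var → ℤ_[q] =>
      ∏ v, ((nb F v (F.dep v + 1) x : ℝ≥0) : ℝ≥0∞) ^ σ v :=
    Finset.measurable_prod _ fun v _ =>
      (measurable_coe_nnreal_ennreal.comp (nb_cont F v _).measurable).pow_const _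
  rw [lintegral_congr h3, lintegral_mul_const _ h4, norms_int F σ hσ0]
  congr 1
  refine Finset.prod_congr rfl fun u _ => ?_
  rw [mul_inl]

end padic

end Pool.Agent.Run7.h697.TW
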