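import Pool.Agent.Run7.h697.TW.PAlg
import Pool.Agent.Run7.h697.TW.Mixed
import Pool.Agent.TH192.PA.Poinc

set_option autoImplicit false
set_option linter.unusedSectionVars false
set_option linter.unusedVariables false

/-! # The integral of a product of powers of the norms of the ideals of a forest -/

namespace Pool.Agent.Run7.h697.TW

open MeasureTheory Pool.Agent.W427.SMC Pool.Agent.TH192.PA
open scoped ENNReal NNReal

attribute [local instance] msZ bsZ

variable {q : ℕ} [Fact q.Prime]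

section Psi

/-- the norm of a vector -/
noncomputable def vn {K : Type} [Fintype K] (y : K → ℤ_[q]) : ℝ≥0 :=
  Finset.univ.sup fun j => ‖y j‖₊

theorem vn_cont {K : Type} [Fintype K] : Continuous (vn : (K → ℤ_[q]) → ℝ≥0) := by
  unfold vn
  exact Continuous.finset_sup_apply fun j _ => (continuous_apply j).nnnorm

theorem vn_le_one {K : Type} [Fintype K] (y : K → ℤ_[q]) : vn y ≤ 1 :=
  Finset.sup_le fun j _ => PadicInt.norm_le_one _

/-- `(q ^ k - 1) / (q ^ k - q ^ (-s))` -/
noncomputable def psi (q k : ℕ) (s : ℝ) : ℝ≥0∞ :=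
  ENNReal.ofReal (((q : ℝ) ^ k - 1) / ((q : ℝ) ^ k - tr' q s))

theorem unit_norm (w : ZMod q) (hw : w ≠ 0) (z : ℤ_[q]) :
    ‖((w.val : ℕ) : ℤ_[q]) + (q : ℤ_[q]) * z‖₊ = 1 := by
  have hp : NeZero q := ⟨(Fact.out : q.Prime).ne_zero⟩
  have h4 : ¬ (q : ℤ_[q]) ∣ (((w.val : ℕ) : ℤ_[q]) + (q : ℤ_[q]) * z) := by
    rw [dvd_add_left (dvd_mul_right _ _), p_dvd_natCast]
    intro h
    have h1 : w.val = 0 := Nat.eq_zero_of_dvd_of_lt h (ZMod.val_lt w)
    exact hw ((ZMod.val_eq_zero w).1 h1)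
  rw [← PadicInt.norm_lt_one_iff_dvd, not_lt] at h4
  exact NNReal.coe_injective (le_antisymm (PadicInt.norm_le_one _) h4)

theorem psi_int {K : Type} [Fintype K] [DecidableEq K] [Nonempty K] (s : ℝ) (hs : 0 ≤ s) :
    ∫⁻ y : K → ℤ_[q], ((vn y : ℝ≥0) : ℝ≥0∞) ^ s ∂(hm q K) = psi q (Fintype.card K) s := by
  have hp : NeZero q := ⟨(Fact.out : q.Prime).ne_zero⟩
  have hq1 : (1 : ℝ) < q := by exact_mod_cast (Fact.out : q.Prime).one_lt
  have hq0 : (0 : ℝ) < q := by linarith
  set I : ℝ≥0∞ := ∫⁻ y : K → ℤ_[q], ((vn y : ℝ≥0) : ℝ≥0∞) ^ s ∂(hm q K) with hI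
  have hmeas : Measurable fun y : K → ℤ_[q] => ((vn y : ℝ≥0) : ℝ≥0∞) ^ s :=
    (measurable_coe_nnreal_ennreal.comp vn_cont.measurable).pow_const s
  have hI1 : I ≤ 1 := by
    refine (lintegral_mono (g := fun _ => (1 : ℝ≥0∞)) fun y => ?_).trans ?_
    · refine ENNReal.rpow_le_one ?_ hs
      exact_mod_cast vn_le_one y
    · simp
  have hIt : I ≠ ⊤ := ne_top_of_le_ne_top ENNReal.one_ne_top hI1
  have h1 := lintegral_smV q _ hmeas
  rw [← hI, smV] at h1
  have h0 : ∫⁻ z : K → ℤ_[q], ((vn (fun i => ((((0 : K → ZMod q) i).val : ℕ) : ℤ_[q])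
      + (q : ℤ_[q]) * z i) : ℝ≥0) : ℝ≥0∞) ^ s ∂(hm q K) = ENNReal.ofReal (tr' q s) * I := by
    have h2 : ∀ z : K → ℤ_[q], ((vn (fun i => ((((0 : K → ZMod q) i).val : ℕ) : ℤ_[q])
        + (q : ℤ_[q]) * z i) : ℝ≥0) : ℝ≥0∞) ^ s
        = ENNReal.ofReal (tr' q s) * ((vn z : ℝ≥0) : ℝ≥0∞) ^ s := by
      intro z
      have h3 : vn (fun i => ((((0 : K → ZMod q) i).val : ℕ) : ℤ_[q]) + (q : ℤ_[q]) * z i)
          = ‖(q : ℤ_[q])‖₊ * vn z := by
        unfold vn
        rw [NNReal.mul_finset_sup]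
        refine Finset.sup_congr rfl fun i _ => ?_
        simp only [Pi.zero_apply, ZMod.val_zero, Nat.cast_zero, zero_add, nnnorm_mul]
      rw [h3, ENNReal.coe_mul, ENNReal.mul_rpow_of_nonneg _ _ hs]
      congr 1
      have h4 : tau q s (q : ℤ_[q]) = ((‖(q : ℤ_[q])‖₊ : ℝ≥0) : ℝ≥0∞) ^ s := tau_eq q s hs _
      rw [← h4, tau, tr']
      congr 1
      rw [PadicInt.norm_p, Real.inv_rpow hq0.le, Real.rpow_neg hq0.le]
    rw [lintegral_congr h2, lintegral_const_mul _ hmeas]
  have hw : ∀ w : K → ZMod q, w ≠ 0 → ∫⁻ z : K → ℤ_[q], ((vn (fun i => (((w i).val : ℕ) : ℤ_[q])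
      + (q : ℤ_[q]) * z i) : ℝ≥0) : ℝ≥0∞) ^ s ∂(hm q K) = 1 := by
    intro w hw
    obtain ⟨i, hi⟩ := Function.ne_iff.1 hw
    have h2 : ∀ z : K → ℤ_[q], ((vn (fun i => (((w i).val : ℕ) : ℤ_[q])
        + (q : ℤ_[q]) * z i) : ℝ≥0) : ℝ≥0∞) ^ s = 1 := by
      intro z
      have h3 : vn (fun i => (((w i).val : ℕ) : ℤ_[q]) + (q : ℤ_[q]) * z i) = 1 := by
        refine le_antisymm (vn_le_one _) ?_
        rw [← unit_norm (w i) hi (z i)]
        exact Finset.le_sup (f := fun i => ‖(((w i).val : ℕ) : ℤ_[q]) + (q : ℤ_[q]) * z i‖₊)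
          (Finset.mem_univ i)
      rw [h3, ENNReal.coe_one, ENNReal.one_rpow]
    rw [lintegral_congr h2, lintegral_one, measure_univ]
  rw [Fintype.sum_eq_add_sum_compl (0 : K → ZMod q), h0,
    Finset.sum_congr rfl fun w h => by
      rw [hw w (by simpa using h)], Finset.sum_const, Finset.card_compl, Finset.card_singleton,
    Fintype.card_pi] at h1
  simp only [ZMod.card, Finset.prod_const, Finset.card_univ, mul_one] at h1
  set k := Fintype.card K with hk
  have hk0 : 0 < k := Fintype.card_pos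
  have h5 := congrArg ENNReal.toReal h1
  have hc1 : (q : ℝ≥0∞)⁻¹ ^ k ≠ ⊤ := by
    refine ENNReal.pow_ne_top (ENNReal.inv_ne_top.2 ?_)
    exact_mod_cast (Fact.out : q.Prime).ne_zero
  rw [ENNReal.toReal_add (ENNReal.mul_ne_top hc1 (ENNReal.mul_ne_top ENNReal.ofReal_ne_top hIt))
    (by rw [nsmul_eq_mul]; exact ENNReal.mul_ne_top (ENNReal.natCast_ne_top _) hc1),
    ENNReal.toReal_mul, ENNReal.toReal_mul, ENNReal.toReal_ofReal (tr'_pos q s).le,
    ENNReal.toReal_pow, ENNReal.toReal_inv, ENNReal.toReal_natCast, nsmul_eq_mul,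
    ENNReal.toReal_mul, ENNReal.toReal_natCast, ENNReal.toReal_pow, ENNReal.toReal_inv,
    ENNReal.toReal_natCast] at h5
  have h6 : (1 : ℝ) < (q : ℝ) ^ k := one_lt_pow₀ hq1 hk0.ne'
  have h7 : tr' q s ≤ 1 := tr'_le q s hs
  have h8 : ((q ^ k - 1 : ℕ) : ℝ) = (q : ℝ) ^ k - 1 := by
    rw [Nat.cast_sub, Nat.cast_pow, Nat.cast_one]
    exact Nat.one_le_pow _ _ (Fact.out : q.Prime).pos
  rw [h8] at h5
  have h9 : (q : ℝ) ^ k ≠ 0 := by positivity
  have h10 : I.toReal = ((q : ℝ) ^ k - 1) / ((q : ℝ) ^ k - tr' q s) := by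
    rw [eq_div_iff (by linarith)]
    rw [inv_pow] at h5
    field_simp at h5
    linarith
  rw [psi, ← h10, ENNReal.ofReal_toReal hIt]

end Psi

section Shear

variable {c n : ℕ} (J0 : Fin c → Fin n) (lam : Fin n → Fin c → ℤ_[q])

theorem shear_zero (hdelta : ∀ m' m, lam (J0 m') m = if m' = m then 1 else 0)
    (y : Fin n → ℤ_[q]) (m : Fin c) :
    y (J0 m) - ∑ m', lam (J0 m) m' * y (J0 m') = 0 := by
  rw [Finset.sum_eq_single m]
  · rw [hdelta, if_pos rfl, one_mul, sub_self]
  · intro m' _ hm'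
    rw [hdelta, if_neg fun h => hm' h.symm, zero_mul]
  · intro h; exact absurd (Finset.mem_univ _) h

theorem avg_shear (hinj : Function.Injective J0)
    (hdelta : ∀ m' m, lam (J0 m') m = if m' = m then 1 else 0) (hlt : c < n) (s : ℝ)
    (hs : 0 ≤ s) :
    ∫⁻ y : Fin n → ℤ_[q], ((Finset.univ.sup fun l : Fin n =>
      ‖y l - ∑ m, lam l m * y (J0 m)‖₊ : ℝ≥0) : ℝ≥0∞) ^ s ∂(hm q (Fin n)) = psi q (n - c) s := by
  classical
  let K := {l : Fin n // ¬ ∃ m, J0 m = l}
  have h1 : ∀ y : Fin n → ℤ_[q], (Finset.univ.sup fun l : Fin n =>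
      ‖y l - ∑ m, lam l m * y (J0 m)‖₊)
      = vn fun l : K => y l.1 - ∑ m, lam l.1 m * y (J0 m) := by
    intro y
    unfold vn
    refine le_antisymm (Finset.sup_le fun l _ => ?_) (Finset.sup_le fun l _ => ?_)
    · by_cases hl : ∃ m, J0 m = l
      · obtain ⟨m, rfl⟩ := hl
        rw [shear_zero J0 lam hdelta y m, nnnorm_zero]
        exact zero_le
      · have h2 := Finset.le_sup (s := (Finset.univ : Finset K)) (f := fun l : K =>
            ‖y l.1 - ∑ m, lam l.1 m * y (J0 m)‖₊) (Finset.mem_univ (⟨l, hl⟩ : K))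
        exact h2
    · have h2 := Finset.le_sup (s := (Finset.univ : Finset (Fin n))) (f := fun l : Fin n =>
        ‖y l - ∑ m, lam l m * y (J0 m)‖₊) (Finset.mem_univ l.1)
      exact h2
  simp only [h1]
  have hcard : Fintype.card K = n - c := by
    have h2 : Fintype.card {l : Fin n // ∃ m, J0 m = l} = c := by
      rw [← Nat.card_eq_fintype_card]
      have h3 : Nat.card (Set.range J0) = Nat.card (Fin c) := Nat.card_range_of_injective hinj
      rw [Nat.card_fin] at h3
      exact h3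
    have h4 := Fintype.card_subtype_compl fun l : Fin n => ∃ m, J0 m = l
    rw [h2, Fintype.card_fin] at h4
    exact h4
  have : Nonempty K := by
    rw [← Fintype.card_pos_iff, hcard]
    omega
  have h2 := lintegral_equivariant q
    (fun (y : Fin n → ℤ_[q]) (l : K) => y l.1 - ∑ m, lam l.1 m * y (J0 m))
    (fun z l => if hl : ¬ ∃ m, J0 m = l then z ⟨l, hl⟩ else 0)
    (Continuous.measurable (by fun_prop)) (by
      intro z y
      funext l
      simp only [Pi.add_apply]
      rw [dif_pos l.2]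
      have h3 : ∀ m, (if hl : ¬ ∃ m', J0 m' = J0 m then y ⟨J0 m, hl⟩ else 0) = 0 := fun m =>
        dif_neg fun hl => hl ⟨m, rfl⟩
      simp only [h3, zero_add]
      ring)
    (fun z => ((vn z : ℝ≥0) : ℝ≥0∞) ^ s)
    ((measurable_coe_nnreal_ennreal.comp vn_cont.measurable).pow_const s)
  rw [h2, psi_int s hs, hcard]

end Shear

variable {V : Type} [Fintype V] [DecidableEq V] (F : Forest V)

/-- the coordinates of the vector of a node -/
noncomputable def xv (x : F.Var → ℤ_[q]) (u : V) (l : ℕ) : ℤ_[q] :=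
  if h : l < F.n u then x ⟨u, ⟨l, h⟩⟩ else 0

/-- the norm of the `k`-minors of the first `k` rows of the branch of `v` -/
noncomputable def nb (v : V) (k : ℕ) (x : F.Var → ℤ_[q]) : ℝ≥0 :=
  nn k (F.n v) fun i l => xv F x (F.anc v i) l

theorem xv_cont (u : V) (l : ℕ) : Continuous fun x : F.Var → ℤ_[q] => xv F x u l := by
  unfold xv
  split_ifs
  · exact continuous_apply _
  · exact continuous_const

theorem nb_cont (v : V) (k : ℕ) : Continuous (nb (q := q) F v k) := by
  unfold nb nn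
  refine Continuous.finset_sup_apply fun J _ => ?_
  refine Continuous.nnnorm ?_
  refine Continuous.matrix_det ?_
  refine continuous_matrix fun i j => ?_
  exact xv_cont F _ _

/-- the distance of the vector of `u` from the span of its ancestors -/
noncomputable def dl (u : V) (x : F.Var → ℤ_[q]) : ℝ≥0 :=
  if nb F u (F.dep u) x = 0 then vn fun l : {l : Fin (F.n u) // F.dep u ≤ (l : ℕ)} => x ⟨u, l.1⟩
  else nb F u (F.dep u + 1) x / nb F u (F.dep u) x

theorem dl_meas (u : V) : Measurable (dl (q := q) F u) := by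
  unfold dl
  refine Measurable.ite ?_ ?_ ?_
  · exact (nb_cont F u (F.dep u)).measurable (measurableSet_singleton 0)
  · refine vn_cont.measurable.comp ?_
    refine Continuous.measurable ?_
    exact continuous_pi fun l => continuous_apply _
  · exact (nb_cont F u _).measurable.div (nb_cont F u _).measurable

theorem nb_succ (u : V) (x : F.Var → ℤ_[q]) :
    nb F u (F.dep u + 1) x = nb F u (F.dep u) x * dl F u x := by
  unfold dl
  split_ifs with h
  · rw [h, zero_mul]
    have h1 : nb F u (F.dep u + 1) x ≤ nb F u (F.dep u) x := nn_succ_le _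
    rw [h] at h1
    exact le_antisymm h1 zero_le
  · rw [mul_div_cancel₀ _ h]

theorem nb_prefix (v : V) (k j : ℕ) (hk : k ≤ F.dep v) (hj : j ≤ k + 1) (x : F.Var → ℤ_[q]) :
    nb F (F.anc v k) j x = nb F v j x := by
  unfold nb
  rw [F.n_anc v k hk]
  refine nn_congr fun i l hi _ => ?_
  rw [F.anc_anc v k i (by omega) hk]

theorem nb_prod (v : V) (x : F.Var → ℤ_[q]) (k : ℕ) (hk : k ≤ F.dep v + 1) :
    nb F v k x = ∏ i ∈ Finset.range k, dl F (F.anc v i) x := by
  induction k with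
  | zero => rw [Finset.range_zero, Finset.prod_empty]; exact nn_zero _ _
  | succ k ih =>
    rw [Finset.prod_range_succ, ← ih (by omega), ← nb_prefix F v k (k + 1) (by omega) le_rfl]
    have h1 := nb_succ F (F.anc v k) x
    rw [F.dep_anc v k (by omega)] at h1
    rw [h1, nb_prefix F v k k (by omega) (by omega)]

theorem nb_full (v : V) (x : F.Var → ℤ_[q]) :
    nb F v (F.dep v + 1) x = ∏ u, if F.Le u v then dl F u x else 1 := by
  rw [nb_prod F v x _ le_rfl, ← Finset.prod_filter]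
  refine Finset.prod_nbij' (fun i => F.anc v i) (fun u => F.dep u) ?_ ?_ ?_ ?_ ?_
  · intro i hi
    rw [Finset.mem_range] at hi
    rw [Finset.mem_filter]
    have h1 := F.dep_anc v i (by omega)
    exact ⟨Finset.mem_univ _, by rw [Forest.Le, h1]; exact ⟨by omega, rfl⟩⟩
  · intro u hu
    rw [Finset.mem_filter] at hu
    rw [Finset.mem_range]
    have := hu.2.1
    omega
  · intro i hi
    rw [Finset.mem_range] at hi
    exact F.dep_anc v i (by omega)
  · intro u hu
    rw [Finset.mem_filter] at hu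
    exact hu.2.2
  · intro i _
    rfl

/-- the vector of `u` is replaced -/
noncomputable def rep (u : V) (x : F.Var → ℤ_[q]) (y : Fin (F.n u) → ℤ_[q]) : F.Var → ℤ_[q] :=
  fun s => if h : s.1 = u then y (Fin.cast (congrArg F.n h) s.2) else x s

theorem xv_rep_of_ne (u u' : V) (h : u' ≠ u) (x : F.Var → ℤ_[q]) (y : Fin (F.n u) → ℤ_[q])
    (l : ℕ) : xv F (rep F u x y) u' l = xv F x u' l := by
  unfold xv rep
  split_ifs
  · rfl
  · rfl

theorem xv_rep_self (u : V) (x : F.Var → ℤ_[q]) (y : Fin (F.n u) → ℤ_[q]) (l : Fin (F.n u)) :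
    xv F (rep F u x y) u l = y l := by
  unfold xv rep
  rw [dif_pos l.2, dif_pos rfl]
  rfl

theorem nb_rep (u v : V) (k : ℕ) (h : ∀ i, i < k → F.anc v i ≠ u) (x : F.Var → ℤ_[q])
    (y : Fin (F.n u) → ℤ_[q]) : nb F v k (rep F u x y) = nb F v k x := by
  unfold nb
  exact nn_congr fun i l hi _ => xv_rep_of_ne F u _ (h i hi) x y l

theorem dl_rep (u v : V) (h : ∀ i, i ≤ F.dep v → F.anc v i ≠ u) (x : F.Var → ℤ_[q])
    (y : Fin (F.n u) → ℤ_[q]) : dl F v (rep F u x y) = dl F v x := by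
  unfold dl
  rw [nb_rep F u v _ (fun i hi => h i hi.le), nb_rep F u v _ (fun i hi => h i (by omega))]
  have h1 : v ≠ u := by
    intro h2
    exact h (F.dep v) le_rfl (by rw [F.anc_self]; exact h2)
  have h2 : ∀ l : {l : Fin (F.n v) // F.dep v ≤ (l : ℕ)}, rep F u x y ⟨v, l.1⟩ = x ⟨v, l.1⟩ := by
    intro l
    unfold rep
    rw [dif_neg h1]
  simp only [h2]

theorem nb_rep_self (u : V) (x : F.Var → ℤ_[q]) (y : Fin (F.n u) → ℤ_[q]) :
    nb F u (F.dep u + 1) (rep F u x y) = nn (F.dep u + 1) (F.n u)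
      (Function.update (fun i l => xv F x (F.anc u i) l) (F.dep u)
        fun l => xv F (rep F u x y) u l) := by
  unfold nb
  refine nn_congr fun i l hi _ => ?_
  by_cases hi2 : i = F.dep u
  · subst hi2
    rw [F.anc_self, Function.update_self]
  · rw [Function.update_of_ne hi2, xv_rep_of_ne]
    exact anc_ne F u (by omega) hi2

/-- **The average over the vector of `u`.** -/
theorem dl_avg (u : V) (x : F.Var → ℤ_[q]) (s : ℝ) (hs : 0 ≤ s) :
    ∫⁻ y : Fin (F.n u) → ℤ_[q], ((dl F u (rep F u x y) : ℝ≥0) : ℝ≥0∞) ^ s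
      ∂(hm q (Fin (F.n u))) = psi q (F.codim u) s := by
  have hlt := F.lt u
  have hnb : ∀ y, nb F u (F.dep u) (rep F u x y) = nb F u (F.dep u) x := fun y =>
    nb_rep F u u _ (fun i hi => anc_ne F u hi.le hi.ne) x y
  by_cases h : nb F u (F.dep u) x = 0
  · have h1 : ∀ y : Fin (F.n u) → ℤ_[q], dl F u (rep F u x y)
        = vn fun l : {l : Fin (F.n u) // F.dep u ≤ (l : ℕ)} => y l.1 := by
      intro y
      unfold dl
      rw [hnb, if_pos h]
      congr 1
      funext l
      unfold rep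
      rw [dif_pos rfl]
      rfl
    simp only [h1]
    have : Nonempty {l : Fin (F.n u) // F.dep u ≤ (l : ℕ)} := ⟨⟨⟨F.dep u, hlt⟩, le_rfl⟩⟩
    have h2 := lintegral_equivariant q
      (fun (y : Fin (F.n u) → ℤ_[q]) (l : {l : Fin (F.n u) // F.dep u ≤ (l : ℕ)}) => y l.1)
      (fun z l => if hl : F.dep u ≤ (l : ℕ) then z ⟨l, hl⟩ else 0)
      (Continuous.measurable (by fun_prop)) (by
        intro z y
        funext l
        simp only [Pi.add_apply]
        rw [dif_pos l.2])
      (fun z => ((vn z : ℝ≥0) : ℝ≥0∞) ^ s)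
      ((measurable_coe_nnreal_ennreal.comp vn_cont.measurable).pow_const s)
    rw [h2, psi_int s hs]
    congr 1
    rw [Fintype.card_subtype, Forest.codim]
    have h3 := Finset.card_filter_add_card_filter_not (s := (Finset.univ : Finset (Fin (F.n u))))
      (fun l => (l : ℕ) < F.dep u)
    have h4 : (Finset.univ.filter fun l : Fin (F.n u) => (l : ℕ) < F.dep u).card = F.dep u := by
      rw [Fin.card_filter_val_lt]
      exact min_eq_right hlt.le
    have h5 : (Finset.univ.filter fun l : Fin (F.n u) => ¬ (l : ℕ) < F.dep u)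
        = Finset.univ.filter fun l : Fin (F.n u) => F.dep u ≤ (l : ℕ) :=
      Finset.filter_congr fun l _ => not_lt
    rw [h4, h5, Finset.card_univ, Fintype.card_fin] at h3
    omega
  · obtain ⟨J0, lam, hinj, hdelta, hstep⟩ := step (c := F.dep u) (n := F.n u)
      (fun i l => xv F x (F.anc u i) l) h
    have h1 : ∀ y : Fin (F.n u) → ℤ_[q], dl F u (rep F u x y)
        = Finset.univ.sup fun l : Fin (F.n u) => ‖y l - ∑ m, lam l m * y (J0 m)‖₊ := by
      intro y
      unfold dl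
      rw [hnb, if_neg h]
      have h2 : nb F u (F.dep u + 1) (rep F u x y) = nb F u (F.dep u) x *
          Finset.univ.sup fun l : Fin (F.n u) => ‖y l - ∑ m, lam l m * y (J0 m)‖₊ := by
        rw [nb_rep_self, hstep]
        simp only [xv_rep_self]
        rfl
      rw [h2, mul_div_assoc, mul_comm, div_mul_cancel₀ _ h]
    simp only [h1]
    exact avg_shear J0 lam hinj hdelta hlt s hs

/-- **Integration over the vector of `u` first.** -/
theorem block_int (u : V) (f : (F.Var → ℤ_[q]) → ℝ≥0∞) (hf : Measurable f) :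
    ∫⁻ x, f x ∂(hm q F.Var)
      = ∫⁻ x, ∫⁻ y, f (rep F u x y) ∂(hm q (Fin (F.n u))) ∂(hm q F.Var) := by
  have hc : Continuous fun w : Fin (F.n u) ⊕ F.Var → ℤ_[q] =>
      rep F u (fun s => w (Sum.inr s)) (fun l => w (Sum.inl l)) := by
    refine continuous_pi fun s => ?_
    unfold rep
    split_ifs
    · exact continuous_apply _
    · exact continuous_apply _
  have h1 := lintegral_equivariant q
    (fun w : Fin (F.n u) ⊕ F.Var → ℤ_[q] =>
      rep F u (fun s => w (Sum.inr s)) (fun l => w (Sum.inl l)))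
    (fun z => Sum.elim (fun l => z ⟨u, l⟩) z) hc.measurable (by
      intro z y
      funext s
      simp only [rep, Pi.add_apply, Sum.elim_inl, Sum.elim_inr]
      split_ifs with h
      · obtain ⟨v, l⟩ := s
        simp only at h
        subst h
        rfl
      · rfl) f hf
  rw [← h1]
  exact lintegral_sum q _ (hf.comp hc.measurable)

theorem prod_int (N : V → ℝ) (hN : ∀ u, 0 ≤ N u) (S : Finset V) :
    ∫⁻ x, ∏ u ∈ S, ((dl F u x : ℝ≥0) : ℝ≥0∞) ^ N u ∂(hm q F.Var)
      = ∏ u ∈ S, psi q (F.codim u) (N u) := by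
  have hm1 : ∀ u, Measurable fun x : F.Var → ℤ_[q] => ((dl F u x : ℝ≥0) : ℝ≥0∞) ^ N u :=
    fun u => (measurable_coe_nnreal_ennreal.comp (dl_meas F u)).pow_const _
  refine Finset.induction_on_max_value F.dep S (by simp) ?_
  intro u S hu hmax ih
  · rw [Finset.prod_insert hu, ← ih]
    simp only [Finset.prod_insert hu]
    have hm2 : Measurable fun x : F.Var → ℤ_[q] => ∏ v ∈ S, ((dl F v x : ℝ≥0) : ℝ≥0∞) ^ N v :=
      Finset.measurable_prod _ fun v _ => hm1 v
    refine (block_int F u _ ((hm1 u).mul hm2)).trans ?_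
    rw [← lintegral_const_mul _ hm2]
    refine lintegral_congr fun x => ?_
    simp only [Pi.mul_apply]
    have h1 : ∀ y, (∏ v ∈ S, ((dl F v (rep F u x y) : ℝ≥0) : ℝ≥0∞) ^ N v)
        = ∏ v ∈ S, ((dl F v x : ℝ≥0) : ℝ≥0∞) ^ N v := by
      intro y
      refine Finset.prod_congr rfl fun v hv => ?_
      rw [dl_rep F u v]
      intro i hi h2
      have h3 := F.dep_anc v i hi
      rw [h2] at h3
      have h4 := hmax v hv
      have h5 : i = F.dep v := by omega
      rw [h5, F.anc_self] at h2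
      rw [h2] at hv
      exact hu hv
    simp only [h1]
    have hm3 : Measurable fun y : Fin (F.n u) → ℤ_[q] =>
        ((dl F u (rep F u x y) : ℝ≥0) : ℝ≥0∞) ^ N u := by
      refine (hm1 u).comp ?_
      refine Continuous.measurable ?_
      refine continuous_pi fun s => ?_
      unfold rep
      split_ifs
      · exact continuous_apply _
      · exact continuous_const
    rw [lintegral_mul_const _ hm3, dl_avg F u x (N u) (hN u)]

theorem rpow_sum {ι : Type} (x : ℝ≥0∞) (S : Finset ι) (f : ι → ℝ) (hf : ∀ i ∈ S, 0 ≤ f i) :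
    x ^ (∑ i ∈ S, f i) = ∏ i ∈ S, x ^ f i := by
  classical
  induction S using Finset.induction_on with
  | empty => simp
  | insert i S hi ih =>
    rw [Finset.sum_insert hi, Finset.prod_insert hi, ENNReal.rpow_add_of_nonneg, ih]
    · exact fun j hj => hf j (Finset.mem_insert_of_mem hj)
    · exact hf i (Finset.mem_insert_self i S)
    · exact Finset.sum_nonneg fun j hj => hf j (Finset.mem_insert_of_mem hj)

/-- **The integral of a product of powers of the norms of the ideals.** -/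
theorem norms_int (σ : V → ℝ) (hσ : ∀ v, 0 ≤ σ v) :
    ∫⁻ x, ∏ v, ((nb F v (F.dep v + 1) x : ℝ≥0) : ℝ≥0∞) ^ σ v ∂(hm q F.Var)
      = ∏ u, psi q (F.codim u) (∑ v, if F.Le u v then σ v else 0) := by
  rw [← prod_int F (fun u => ∑ v, if F.Le u v then σ v else 0)
    (fun u => Finset.sum_nonneg fun v _ => by split_ifs; exacts [hσ v, le_rfl])]
  refine lintegral_congr fun x => ?_
  have h1 : ∀ v, ((nb F v (F.dep v + 1) x : ℝ≥0) : ℝ≥0∞) ^ σ v
      = ∏ u, ((dl F u x : ℝ≥0) : ℝ≥0∞) ^ (if F.Le u v then σ v else 0) := by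
    intro v
    rw [nb_full, ENNReal.ofNNReal_finsetProd, ← ENNReal.prod_rpow_of_nonneg (hσ v)]
    refine Finset.prod_congr rfl fun u _ => ?_
    split_ifs
    · rfl
    · rw [ENNReal.coe_one, ENNReal.one_rpow, ENNReal.rpow_zero]
  simp only [h1]
  rw [Finset.prod_comm]
  refine Finset.prod_congr rfl fun u _ => ?_
  exact (rpow_sum _ Finset.univ _ fun v _ => by split_ifs; exacts [hσ v, le_rfl]).symm

end Pool.Agent.Run7.h697.TW
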