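import Pool.Agent.Run7.h697.TW.PPole
import Pool.Agent.R852.PP.FE

set_option autoImplicit false
set_option linter.unusedSectionVars false
set_option linter.unusedVariables false

/-! # Orders of poles and multiplicities of roots -/

namespace Pool.Agent.Run7.h697.TW

open Pool.Agent.W427.SMC Pool.Agent.TH192.PA Pool.Agent.TH192.DT Polynomial
open Pool.Agent.R852.PP (phiA functionalEq_strong gen form)
open Pool.Agent.H628R4.TP (IsBFunction)
open Pool.Agent.W574.LM (IsLocEq)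

variable {V T : Type} [Fintype V] [DecidableEq V] [Fintype T] [DecidableEq T] (F : Forest V)

/-- **The factor of the strict transforms, and the roots of the other factor.** -/
theorem split_b (e : T → V → ℕ) (a : T → ℕ) (t0 : T) (ht0 : a t0 ≠ 0) (b : ℂ[X])
    (hb : IsBFunction (powProd a fun t => F.prods (e t)) b) :
    ∃ b' : ℂ[X], b = phiA a * b' ∧ ∀ v, (∃ t, a t ≠ 0 ∧ e t v ≠ 0) →
      ∀ l : ℕ, l < F.mul e a (Sum.inl v) →
        b'.eval (-((F.codim v : ℂ) + l) / F.mul e a (Sum.inl v)) = 0 := by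
  have hb1 : IsBFunction (form a 1 fun t => F.prods (e t)) b := by
    unfold form
    rw [map_one, one_mul]
    exact hb
  obtain ⟨b', h1, h2⟩ := functionalEq_strong a 1 (fun t => F.prods (e t)) one_ne_zero
    (fun t => prods_ne F (e t)) t0 ht0 b hb1
  refine ⟨b', h1, fun v hv l hl => ?_⟩
  have h3 : gen a (1 : MvPolynomial F.Var ℂ) (fun t => F.prods (e t)) =
      prodFam fun q : Σ t, Fin (a t) => F.prods (e q.1) := by
    funext J
    unfold gen
    rw [one_mul]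
  rw [h3] at h2
  have h4 : IsLocEq 1 (prodFam fun q : Σ t, Fin (a t) => F.prods (e q.1)) b' := by
    obtain ⟨U, P, h5, h6⟩ := h2
    refine ⟨U, P, h5, fun s => ?_⟩
    rw [one_mul]
    exact h6 s
  exact mix_ideal_roots F v e a hv b' 1 (by rw [map_one]; exact one_ne_zero) h4 l hl

theorem strict_dvd (a : T → ℕ) (r : ℂ) :
    (X - C r) ^ Nat.card {t // 0 < a t ∧ (a t : ℂ) * r = -1} ∣ phiA a := by
  classical
  rw [Nat.card_eq_fintype_card, Fintype.card_subtype]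
  unfold phiA
  rw [← Finset.prod_const, Finset.prod_filter]
  refine Finset.prod_dvd_prod_of_dvd _ _ fun t _ => ?_
  split_ifs with h
  · refine dvd_trans ?_ (Finset.dvd_prod_of_mem _ (Finset.mem_range.2 h.1))
    rw [dvd_iff_isRoot, IsRoot.def, eval_add, eval_mul, eval_C, eval_X, eval_C, h.2]
    push_cast
    ring
  · exact one_dvd _

variable {q : ℕ} [Fact q.Prime]

/-- **The roots at the poles**, for a node which is used itself. -/
theorem root_of_cnt' (e : T → V → ℕ) (a : T → ℕ)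
    (he : ∀ v, 0 < F.mul e a (Sum.inl v) → ∃ t, a t ≠ 0 ∧ e t v ≠ 0) (x : ℂ)
    (hx : Nat.card {v // 0 < F.mul e a (Sum.inl v) ∧
      x ^ F.mul e a (Sum.inl v) = ((q ^ F.nu T (Sum.inl v) : ℕ) : ℂ)} ≤ 1) (b : ℂ[X])
    (hb : IsBFunction (MvPolynomial.map (Int.castRingHom ℂ) (F.formZ e a)) b) :
    (X - C ((-Real.log ‖x‖ / Real.log q : ℝ) : ℂ)) ^ cnt q (F.nu T) (F.mul e a) x ∣ b := by
  classical
  have hq1 : 1 < q := (Fact.out : q.Prime).one_lt
  rw [map_formZ] at hb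
  have hsplit : cnt q (F.nu T) (F.mul e a) x =
      Nat.card {v // 0 < F.mul e a (Sum.inl v) ∧
        x ^ F.mul e a (Sum.inl v) = ((q ^ F.nu T (Sum.inl v) : ℕ) : ℂ)} +
      Nat.card {t // 0 < F.mul e a (Sum.inr t) ∧
        x ^ F.mul e a (Sum.inr t) = ((q ^ F.nu T (Sum.inr t) : ℕ) : ℂ)} := by
    unfold cnt
    rw [← Nat.card_sum]
    exact Nat.card_congr Equiv.subtypeSum
  by_cases ht : ∃ t0, a t0 ≠ 0
  · obtain ⟨t0, ht0⟩ := ht
    obtain ⟨b', h1, h2⟩ := split_b F e a t0 ht0 b hb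
    rw [hsplit, h1, add_comm, pow_add]
    refine mul_dvd_mul ?_ ?_
    · refine dvd_trans (pow_dvd_pow _ ?_) (strict_dvd a _)
      refine Nat.card_le_card_of_injective (fun t => (⟨t.1, t.2.1, ?_⟩ :
        {t // 0 < a t ∧ (a t : ℂ) * ((-Real.log ‖x‖ / Real.log q : ℝ) : ℂ) = -1})) ?_
      · have h3 := norm_of_pow q 1 (a t.1) hq1 t.2.1 x t.2.2
        rw [h3]
        have h4 : (a t.1 : ℂ) ≠ 0 := by exact_mod_cast t.2.1.ne'
        push_cast
        field_simp
      · intro i j h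
        apply Subtype.ext
        exact congrArg (fun z : {t // 0 < a t ∧
          (a t : ℂ) * ((-Real.log ‖x‖ / Real.log q : ℝ) : ℂ) = -1} => z.1) h
    · rcases Nat.le_one_iff_eq_zero_or_eq_one.1 hx with h3 | h3
      · rw [h3, pow_zero]
        exact one_dvd _
      · rw [h3, pow_one, dvd_iff_isRoot, IsRoot.def]
        obtain ⟨⟨v, hv, hs⟩⟩ := (Nat.card_pos_iff.1 (by rw [h3]; exact Nat.one_pos)).1
        have h4 := h2 v (he v hv) 0 hv
        rw [norm_of_pow q (F.nu T (Sum.inl v)) (F.mul e a (Sum.inl v)) hq1 hv x hs]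
        rw [Nat.cast_zero, add_zero] at h4
        push_cast
        rw [← neg_div]
        exact h4
  · have h0 : cnt q (F.nu T) (F.mul e a) x = 0 := by
      unfold cnt
      rw [Nat.card_eq_zero]
      left
      refine ⟨fun i => ?_⟩
      obtain ⟨i, hi, -⟩ := i
      push Not at ht
      rcases i with v | t
      · change 0 < ∑ t, a t * _ at hi
        rw [Finset.sum_eq_zero fun t _ => by rw [ht t, zero_mul]] at hi
        exact lt_irrefl _ hi
      · change 0 < a t at hi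
        rw [ht t] at hi
        exact lt_irrefl _ hi
    rw [h0, pow_zero]
    exact one_dvd _

/-- every pole gives a root -/
theorem root_of_pos (e : T → V → ℕ) (a : T → ℕ)
    (he : ∀ v, 0 < F.mul e a (Sum.inl v) → ∃ t, a t ≠ 0 ∧ e t v ≠ 0) (x : ℂ)
    (hx : 0 < cnt q (F.nu T) (F.mul e a) x) (b : ℂ[X])
    (hb : IsBFunction (MvPolynomial.map (Int.castRingHom ℂ) (F.formZ e a)) b) :
    b.eval ((-Real.log ‖x‖ / Real.log q : ℝ) : ℂ) = 0 := by
  have hq1 : 1 < q := (Fact.out : q.Prime).one_lt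
  rw [map_formZ] at hb
  obtain ⟨⟨i, hi, hs⟩⟩ := (Nat.card_pos_iff.1 hx).1
  rw [norm_of_pow q (F.nu T i) (F.mul e a i) hq1 hi x hs]
  have h5 : ∃ t0, a t0 ≠ 0 := by
    by_contra ht
    push Not at ht
    rcases i with v | t
    · change 0 < ∑ t, a t * _ at hi
      rw [Finset.sum_eq_zero fun t _ => by rw [ht t, zero_mul]] at hi
      exact lt_irrefl _ hi
    · change 0 < a t at hi
      rw [ht t] at hi
      exact lt_irrefl _ hi
  obtain ⟨t0, ht0⟩ := h5
  obtain ⟨b', h1, h2⟩ := split_b F e a t0 ht0 b hb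
  rw [h1, eval_mul, mul_eq_zero]
  rcases i with v | t
  · right
    have h4 := h2 v (he v hi) 0 hi
    rw [Nat.cast_zero, add_zero] at h4
    push_cast
    rw [← neg_div]
    exact h4
  · left
    have h3 : (X - C (((-((F.nu T (Sum.inr t) : ℝ) / F.mul e a (Sum.inr t)) : ℝ) : ℂ))) ∣
        phiA a := by
      unfold phiA
      refine dvd_trans ?_ (Finset.dvd_prod_of_mem _ (Finset.mem_univ t))
      refine dvd_trans ?_ (Finset.dvd_prod_of_mem _ (Finset.mem_range.2 hi))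
      rw [dvd_iff_isRoot, IsRoot.def, eval_add, eval_mul, eval_C, eval_X, eval_C]
      have h4 : (a t : ℂ) ≠ 0 := by
        have : 0 < a t := hi
        exact_mod_cast this.ne'
      change (a t : ℂ) * (((-(((1 : ℕ) : ℝ) / (a t : ℝ)) : ℝ) : ℂ)) + _ = 0
      push_cast
      field_simp
      ring
    exact dvd_iff_isRoot.1 h3

theorem pw_cpow (s : ℂ) : pw q s = (q : ℂ) ^ (-s) := by
  have h0 : (q : ℂ) ≠ 0 := by exact_mod_cast (Fact.out : q.Prime).ne_zero
  rw [Complex.cpow_def_of_ne_zero h0, pw, ← Complex.natCast_log]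
  congr 1
  ring

/-- The number of the poles' conditions: the `i` with `N i > 0` and `(q ^ (-s)) ^ N i = q ^ ν i`. -/
theorem cnt_cpow {ι : Type} [Fintype ι] (ν N : ι → ℕ) (s : ℂ) :
    cnt q ν N (pw q s) =
      Nat.card {i : ι // 0 < N i ∧ ((q : ℂ) ^ (-s)) ^ N i = (q : ℂ) ^ ν i} := by
  unfold cnt
  rw [pw_cpow]
  simp only [Nat.cast_pow]

/-- **The theorem for the zeta functions.** -/
theorem zeta_main (e : T → V → ℕ) (a : T → ℕ) (Z : ℂ → ℂ) (hZ : MeromorphicOn Z Set.univ)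
    (hI : ∀ s : ℂ, 0 < s.re → Z s = igusaZeta q (F.formZ e a) s) (s₀ : ℂ) :
    meromorphicOrderAt Z s₀ = ((-(Nat.card {i : V ⊕ T // 0 < F.mul e a i ∧
      ((q : ℂ) ^ (-s₀)) ^ F.mul e a i = (q : ℂ) ^ F.nu T i} : ℤ) : ℤ) : WithTop ℤ) := by
  rw [igusa_orderF F e a Z hZ hI s₀, cnt_cpow]

theorem zeta_root (e : T → V → ℕ) (a : T → ℕ)
    (he : ∀ v, 0 < F.mul e a (Sum.inl v) → ∃ t, a t ≠ 0 ∧ e t v ≠ 0)
    (Z : ℂ → ℂ) (hZ : MeromorphicOn Z Set.univ)
    (hI : ∀ s : ℂ, 0 < s.re → Z s = igusaZeta q (F.formZ e a) s) (s₀ : ℂ)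
    (hs₀ : meromorphicOrderAt Z s₀ < 0) (b : ℂ[X])
    (hb : IsBFunction (MvPolynomial.map (Int.castRingHom ℂ) (F.formZ e a)) b) :
    b.eval (s₀.re : ℂ) = 0 := by
  rw [igusa_orderF F e a Z hZ hI s₀] at hs₀
  have h1 : 0 < cnt q (F.nu T) (F.mul e a) (pw q s₀) := by
    have h2 : (-(cnt q (F.nu T) (F.mul e a) (pw q s₀) : ℤ)) < 0 := by exact_mod_cast hs₀
    omega
  have h3 := root_of_pos (q := q) F e a he _ h1 b hb
  rw [pw_norm] at h3
  exact h3

theorem zeta_order (e : T → V → ℕ) (a : T → ℕ)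
    (he : ∀ v, 0 < F.mul e a (Sum.inl v) → ∃ t, a t ≠ 0 ∧ e t v ≠ 0)
    (Z : ℂ → ℂ) (hZ : MeromorphicOn Z Set.univ)
    (hI : ∀ s : ℂ, 0 < s.re → Z s = igusaZeta q (F.formZ e a) s) (s₀ : ℂ)
    (h1 : Nat.card {v // 0 < F.mul e a (Sum.inl v) ∧
      ((q : ℂ) ^ (-s₀)) ^ F.mul e a (Sum.inl v) = (q : ℂ) ^ F.codim v} ≤ 1) (b : ℂ[X])
    (hb0 : b ≠ 0)
    (hb : IsBFunction (MvPolynomial.map (Int.castRingHom ℂ) (F.formZ e a)) b) :
    ((-(b.rootMultiplicity (s₀.re : ℂ) : ℤ) : ℤ) : WithTop ℤ) ≤ meromorphicOrderAt Z s₀ := by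
  rw [igusa_orderF F e a Z hZ hI s₀]
  have h2 := root_of_cnt' (q := q) F e a he (pw q s₀) (by
    rw [pw_cpow]
    simp only [Nat.cast_pow]
    exact h1) b hb
  rw [pw_norm] at h2
  have h3 := (le_rootMultiplicity_iff hb0).2 h2
  rw [WithTop.coe_le_coe]
  omega

/-- **The theorem for the Poincaré series.** -/
theorem poincare_rootF (e : T → V → ℕ) (a : T → ℕ)
    (he : ∀ v, 0 < F.mul e a (Sum.inl v) → ∃ t, a t ≠ 0 ∧ e t v ≠ 0) (T₀ : ℂ) (r : ℕ)
    (hr : 0 < r) (h : Pool.Agent.W206.CU.IsPoleOfOrder (poincare q (F.formZ e a)) T₀ r) (b : ℂ[X])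
    (hb : IsBFunction (MvPolynomial.map (Int.castRingHom ℂ) (F.formZ e a)) b) :
    b.eval ((-Real.log ‖T₀‖ / Real.log q : ℝ) : ℂ) = 0 := by
  have h1 := (poincare_poles F e a T₀ r hr).1 h
  exact root_of_pos F e a he T₀ (by rw [h1]; exact hr) b hb

end Pool.Agent.Run7.h697.TW
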