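import Pool.Agent.Run7.h697.TW.PForm
import Pool.Agent.W427.SMC.Poin4

set_option autoImplicit false
set_option linter.unusedSectionVars false
set_option linter.unusedVariables false

/-! # The poles of the p-adic zeta functions and of the Poincaré series, and their exact orders -/

namespace Pool.Agent.Run7.h697.TW

open MeasureTheory Pool.Agent.W427.SMC Pool.Agent.TH192.PA Pool.Agent.TH192.DT Polynomial Filter
  Topology
open scoped ENNReal NNReal
open Pool.Agent.W206.CU (dens IsPoleOfOrder)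

attribute [local instance] msZ bsZ

variable {V T : Type} [Fintype V] [DecidableEq V] [Fintype T] [DecidableEq T] (F : Forest V)

section General

variable {ι : Type} [Fintype ι] (q : ℕ) (ν N : ι → ℕ)

theorem fac_rm_eq (ν N : ℕ) (hq : 1 < q) (hν : 0 < ν) (x : ℂ) :
    (C ((q ^ ν : ℕ) : ℂ) - X ^ N : ℂ[X]).rootMultiplicity x =
      if 0 < N ∧ x ^ N = ((q ^ ν : ℕ) : ℂ) then 1 else 0 := by
  refine le_antisymm (fac_rm q ν N hq hν x) ?_
  split_ifs with h
  · refine (rootMultiplicity_pos (fac_ne q ν N hq hν)).2 ?_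
    rw [IsRoot.def, eval_sub, eval_C, eval_pow, eval_X, h.2, sub_self]
  · exact Nat.zero_le _

/-- The number of the `i` with `N i > 0` and `x ^ N i = q ^ ν i`. -/
noncomputable def cnt (x : ℂ) : ℕ := Nat.card {i : ι // 0 < N i ∧ x ^ N i = ((q ^ ν i : ℕ) : ℂ)}

theorem Rc_rm_eq (hq : 1 < q) (hν : ∀ i, 0 < ν i) (x : ℂ) :
    (Rc q ν N).rootMultiplicity x = cnt q ν N x := by
  classical
  unfold Rc cnt
  rw [rm_prod _ _ (fun i _ => fac_ne q (ν i) (N i) hq (hν i))]
  rw [Nat.card_eq_fintype_card, Fintype.card_subtype, Finset.card_filter]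
  exact Finset.sum_congr rfl fun i _ => fac_rm_eq q (ν i) (N i) hq (hν i) x

theorem cnt_le (hq : 1 < q) (x : ℂ) :
    cnt q ν N x ≤ Nat.card {i // 0 < N i ∧ -Real.log ‖x‖ / Real.log q = -((ν i : ℝ) / N i)} := by
  unfold cnt
  refine Nat.card_le_card_of_injective (fun i => (⟨i.1, i.2.1,
    norm_of_pow q (ν i.1) (N i.1) hq i.2.1 x i.2.2⟩ :
      {i // 0 < N i ∧ -Real.log ‖x‖ / Real.log q = -((ν i : ℝ) / N i)})) ?_
  intro i j h
  apply Subtype.ext
  exact congrArg (fun z : {i // 0 < N i ∧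
    -Real.log ‖x‖ / Real.log q = -((ν i : ℝ) / N i)} => z.1) h

variable [Fact q.Prime]

/-- the exact order of a pole -/
theorem mero_eq (R : ℂ[X]) (hR : R ≠ 0) (K : ℂ) (hK : K ≠ 0) (g : ℂ → ℂ)
    (hg : MeromorphicOn g Set.univ)
    (h : ∀ s : ℝ, 0 < s → R.eval (pw q s) * g s = K) (s0 : ℂ) :
    meromorphicOrderAt g s0 = ((-(R.rootMultiplicity (pw q s0) : ℤ) : ℤ) : WithTop ℤ) := by
  set F1 : ℂ → ℂ := (fun s => R.eval (pw q s)) * g with hF1
  set F2 : ℂ → ℂ := fun _ => K with hF2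
  have hRa : ∀ s, AnalyticAt ℂ (fun s => R.eval (pw q s)) s := fun s =>
    (R.differentiable.analyticAt (pw q s)).comp (pw_analytic q s)
  have hPa : ∀ s, AnalyticAt ℂ F2 s := fun s => analyticAt_const
  have hm : MeromorphicOn (F1 - F2) Set.univ := fun s hs =>
    ((hRa s).meromorphicAt.mul (hg s hs)).sub (hPa s).meromorphicAt
  have h1 : meromorphicOrderAt (F1 - F2) 1 = ⊤ := by
    by_contra hne
    have h2 := (meromorphicOrderAt_ne_top_iff_eventually_ne_zero (hm 1 (Set.mem_univ _))).1 hne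
    rw [eventually_nhdsWithin_iff, Metric.eventually_nhds_iff] at h2
    obtain ⟨ε, hε, h3⟩ := h2
    have h4 := h3 (y := ((1 + ε / 2 : ℝ) : ℂ)) (by
      rw [dist_eq_norm]
      have : ((1 + ε / 2 : ℝ) : ℂ) - 1 = ((ε / 2 : ℝ) : ℂ) := by push_cast; ring
      rw [this, Complex.norm_real, Real.norm_of_nonneg (by positivity)]
      linarith) (by
      intro h5
      have h6 : ((1 + ε / 2 : ℝ) : ℂ) = ((1 : ℝ) : ℂ) := by simpa using h5
      have h7 := Complex.ofReal_injective h6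
      linarith)
    apply h4
    simp only [Pi.sub_apply, hF1, hF2, Pi.mul_apply]
    rw [h (1 + ε / 2) (by positivity), sub_self]
  have h2 : meromorphicOrderAt (F1 - F2) s0 = ⊤ := by
    by_contra hne
    exact hm.meromorphicOrderAt_ne_top_of_isPreconnected isPreconnected_univ (Set.mem_univ s0)
      (Set.mem_univ 1) hne h1
  have h3 : F1 =ᶠ[𝓝[≠] s0] F2 := by
    rw [meromorphicOrderAt_eq_top_iff] at h2
    filter_upwards [h2] with z hz
    exact sub_eq_zero.1 hz
  have h4 : meromorphicOrderAt F1 s0 = meromorphicOrderAt F2 s0 := meromorphicOrderAt_congr h3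
  have h5 : meromorphicOrderAt F1 s0 = 0 := by
    rw [h4, (hPa s0).meromorphicOrderAt_eq, (hPa s0).analyticOrderAt_eq_zero.2 hK]
    rfl
  rw [hF1, meromorphicOrderAt_mul (hRa s0).meromorphicAt (hg s0 (Set.mem_univ _))] at h5
  have h6 : meromorphicOrderAt (fun s => R.eval (pw q s)) s0 =
      (R.rootMultiplicity (pw q s0) : ℤ) := by
    have := meromorphicOrderAt_comp_of_deriv_ne_zero (f := fun z => R.eval z) (pw_analytic q s0)
      (pw_deriv q s0)
    rw [order_poly R hR] at this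
    exact this
  rw [h6] at h5
  rcases hgo : meromorphicOrderAt g s0 with _ | n
  · rw [hgo] at h5
    change ((R.rootMultiplicity (pw q s0) : ℤ) : WithTop ℤ) + ⊤ = 0 at h5
    rw [WithTop.add_top] at h5
    exact absurd h5 (by simp)
  · rw [hgo] at h5
    change ((R.rootMultiplicity (pw q s0) : ℤ) : WithTop ℤ) + ((n : ℤ) : WithTop ℤ) = 0 at h5
    change ((n : ℤ) : WithTop ℤ) = _
    rw [← WithTop.coe_add, ← WithTop.coe_zero, WithTop.coe_eq_coe] at h5
    rw [WithTop.coe_eq_coe]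
    omega

end General

section Zeta

variable {q : ℕ} [Fact q.Prime]

/-- The constant `∏ v, (q ^ (n v - dep v) - 1) ∏ t, (q - 1)`. -/
noncomputable def Kq (q : ℕ) (T : Type) [Fintype T] : ℂ :=
  ∏ i : V ⊕ T, (((q ^ F.nu T i : ℕ) : ℂ) - 1)

theorem Kq_ne : Kq F q T ≠ 0 := by
  refine Finset.prod_ne_zero_iff.2 fun i _ => ?_
  rw [sub_ne_zero]
  have h1 : 1 < q ^ F.nu T i := Nat.one_lt_pow (F.nu_pos T i).ne' (Fact.out : q.Prime).one_lt
  exact_mod_cast h1.ne'

theorem psi_eq (k N : ℕ) (hk : 0 < k) (s : ℝ) (hs : 0 ≤ s) :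
    ((q : ℝ) ^ k - tr' q s ^ N) * (psi q k ((N : ℝ) * s)).toReal = (q : ℝ) ^ k - 1 := by
  have hq1 : (1 : ℝ) < q := by exact_mod_cast (Fact.out : q.Prime).one_lt
  have h1 : (1 : ℝ) < (q : ℝ) ^ k := one_lt_pow₀ hq1 hk.ne'
  have h2 : tr' q ((N : ℝ) * s) ≤ 1 := tr'_le q _ (by positivity)
  rw [psi, ENNReal.toReal_ofReal (div_nonneg (by linarith) (by linarith)), tr'_nat]
  rw [tr'_nat] at h2
  rw [mul_div_cancel₀]
  intro h
  linarith

/-- **The zeta function times the denominator is a constant.** -/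
theorem igusa_const (e : T → V → ℕ) (a : T → ℕ) (s : ℝ) (hs : 0 ≤ s) :
    (Rc q (F.nu T) (F.mul e a)).eval (pw q s) *
      ((∫⁻ z, tau q s (MvPolynomial.aeval z (F.formZ e a)) ∂(hm q _)).toReal : ℂ) =
        Kq F q T := by
  rw [igusa_eqF F e a s hs, ENNReal.toReal_mul, ENNReal.toReal_prod, ENNReal.toReal_prod, pw_real]
  unfold Rc Kq
  rw [eval_prod, Fintype.prod_sum_type, Fintype.prod_sum_type, Complex.ofReal_mul,
    mul_mul_mul_comm]
  congr 1
  · rw [Complex.ofReal_prod, ← Finset.prod_mul_distrib]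
    refine Finset.prod_congr rfl fun u _ => ?_
    rw [eval_sub, eval_C, eval_pow, eval_X]
    have h1 := congrArg (fun r : ℝ => (r : ℂ)) (psi_eq (q := q) (F.codim u)
      (F.mul e a (Sum.inl u)) (F.codim_pos u) s hs)
    simp only [Complex.ofReal_mul, Complex.ofReal_sub, Complex.ofReal_pow, Complex.ofReal_natCast,
      Complex.ofReal_one] at h1
    change (((q ^ F.codim u : ℕ) : ℂ) - _) * _ = (((q ^ F.codim u : ℕ) : ℂ) - 1)
    rw [Nat.cast_pow]
    exact h1
  · rw [Complex.ofReal_prod, ← Finset.prod_mul_distrib]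
    refine Finset.prod_congr rfl fun t _ => ?_
    rw [eval_sub, eval_C, eval_pow, eval_X]
    have h7 := phi_eq q ((a t : ℝ) * s) (by positivity)
    have h8 : (q : ℝ) ^ (-((a t : ℝ) * s)) = tr' q s ^ a t := tr'_nat q s (a t)
    rw [h8] at h7
    have h9 := congrArg (fun r : ℝ => (r : ℂ)) h7
    simp only [Complex.ofReal_mul, Complex.ofReal_sub, Complex.ofReal_pow, Complex.ofReal_natCast,
      Complex.ofReal_one] at h9
    change (((q ^ 1 : ℕ) : ℂ) - _) * _ = (((q ^ 1 : ℕ) : ℂ) - 1)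
    rw [pow_one]
    exact h9

/-- **The zeta function.** -/
theorem igusa_formula (e : T → V → ℕ) (a : T → ℕ) (s : ℝ) (hs : 0 < s) :
    igusaZeta q (F.formZ e a) s = ∏ i : V ⊕ T, (((q ^ F.nu T i : ℕ) : ℂ) - 1) /
      (((q ^ F.nu T i : ℕ) : ℂ) - pw q s ^ F.mul e a i) := by
  have h1 := igusa_const (q := q) F e a s hs.le
  have h2 : (Rc q (F.nu T) (F.mul e a)).eval (pw q s)
      = ∏ i : V ⊕ T, (((q ^ F.nu T i : ℕ) : ℂ) - pw q s ^ F.mul e a i) := by
    unfold Rc
    rw [eval_prod]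
    refine Finset.prod_congr rfl fun i _ => ?_
    rw [eval_sub, eval_C, eval_pow, eval_X]
  have h3 : ∀ i : V ⊕ T, (((q ^ F.nu T i : ℕ) : ℂ) - pw q s ^ F.mul e a i) ≠ 0 := by
    intro i h
    rw [sub_eq_zero, pw_real] at h
    have h4 : ((q ^ F.nu T i : ℕ) : ℝ) = tr' q s ^ F.mul e a i := by exact_mod_cast h
    have h5 : tr' q s ^ F.mul e a i ≤ 1 := pow_le_one₀ (tr'_pos q s).le (tr'_le q s hs.le)
    have h6 : 1 < q ^ F.nu T i := Nat.one_lt_pow (F.nu_pos T i).ne' (Fact.out : q.Prime).one_lt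
    have h7 : (1 : ℝ) < ((q ^ F.nu T i : ℕ) : ℝ) := by exact_mod_cast h6
    linarith
  rw [hm_igusa, Finset.prod_div_distrib, eq_div_iff (Finset.prod_ne_zero_iff.2 fun i _ => h3 i),
    ← h2, mul_comm]
  exact h1

/-- **The exact order of a pole.** -/
theorem igusa_orderF (e : T → V → ℕ) (a : T → ℕ) (g : ℂ → ℂ) (hg : MeromorphicOn g Set.univ)
    (h : ∀ s : ℂ, 0 < s.re → g s = igusaZeta q (F.formZ e a) s) (s0 : ℂ) :
    meromorphicOrderAt g s0
      = ((-(cnt q (F.nu T) (F.mul e a) (pw q s0) : ℤ) : ℤ) : WithTop ℤ) := by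
  have hq1 : 1 < q := (Fact.out : q.Prime).one_lt
  rw [mero_eq q (Rc q (F.nu T) (F.mul e a)) (Rc_ne q hq1 _ _ (F.nu_pos T)) (Kq F q T)
    (Kq_ne F) g hg (fun s hs => by
      rw [h s (by simpa using hs), hm_igusa]; exact igusa_const F e a s hs.le) s0,
    Rc_rm_eq q _ _ hq1 (F.nu_pos T)]

/-- **Every pole gives a root.** -/
theorem root_of_cnt (e : T → V → ℕ) (a : T → ℕ) (he : ∀ v, ∃ t, a t ≠ 0 ∧ e t v ≠ 0) (x : ℂ)
    (hx : 0 < cnt q (F.nu T) (F.mul e a) x) (b : ℂ[X])
    (hb : Pool.Agent.H628R4.TP.IsBFunction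
      (MvPolynomial.map (Int.castRingHom ℂ) (F.formZ e a)) b) :
    b.eval ((-Real.log ‖x‖ / Real.log q : ℝ) : ℂ) = 0 := by
  have hq1 : 1 < q := (Fact.out : q.Prime).one_lt
  rw [map_formZ] at hb
  obtain ⟨⟨i, hi, hs⟩⟩ := (Nat.card_pos_iff.1 hx).1
  have h4 := mix_roots F e a he b (Or.inl hb) i 0 hi
  rw [norm_of_pow q (F.nu T i) (F.mul e a i) hq1 hi x hs]
  rw [Nat.cast_zero, add_zero] at h4
  push_cast
  rw [← neg_div]
  exact h4

theorem igusa_rootF (e : T → V → ℕ) (a : T → ℕ) (he : ∀ v, ∃ t, a t ≠ 0 ∧ e t v ≠ 0)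
    (g : ℂ → ℂ) (hg : MeromorphicOn g Set.univ)
    (h : ∀ s : ℂ, 0 < s.re → g s = igusaZeta q (F.formZ e a) s) (s0 : ℂ)
    (hs0 : meromorphicOrderAt g s0 < 0) (b : ℂ[X])
    (hb : Pool.Agent.H628R4.TP.IsBFunction
      (MvPolynomial.map (Int.castRingHom ℂ) (F.formZ e a)) b) :
    b.eval (s0.re : ℂ) = 0 := by
  rw [igusa_orderF F e a g hg h s0] at hs0
  have h1 : 0 < cnt q (F.nu T) (F.mul e a) (pw q s0) := by
    have h2 : (-(cnt q (F.nu T) (F.mul e a) (pw q s0) : ℤ)) < 0 := by exact_mod_cast hs0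
    omega
  have h3 := root_of_cnt (q := q) F e a he _ h1 b hb
  rw [pw_norm] at h3
  exact h3

/-- **The Poincaré series.** -/
theorem poincare_formula (e : T → V → ℕ) (a : T → ℕ) :
    ((Rc q (F.nu T) (F.mul e a) * (1 - X) : ℂ[X]) : PowerSeries ℂ) *
      poincare q (F.formZ e a) =
        ((Rc q (F.nu T) (F.mul e a) - C (Kq F q T) * X : ℂ[X]) : PowerSeries ℂ) := by
  set D := Rc q (F.nu T) (F.mul e a) with hDdef
  set f := F.formZ e a with hf
  have h : ∀ s : ℝ, 0 ≤ s → D.eval (tr' q s : ℂ) *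
      ((∫⁻ z, tau q s (MvPolynomial.aeval z f) ∂(Measure.pi fun _ => mu q)).toReal : ℂ) =
        Kq F q T := by
    intro s hs
    have h1 := igusa_const (q := q) F e a s hs
    rw [pw_real] at h1
    exact h1
  rw [← sub_eq_zero]
  refine Conv.zero_of ?_
  have h4 := ((poincare_conv q f).poly_mul (D * (1 - X))).add
    ((Conv.poly (D - C (Kq F q T) * X)).C_mul (-1))
  have h5 : ((D * (1 - X) : ℂ[X]) : PowerSeries ℂ) * poincare q f
      - ((D - C (Kq F q T) * X : ℂ[X]) : PowerSeries ℂ) =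
      ((D * (1 - X) : ℂ[X]) : PowerSeries ℂ) * poincare q f
        + PowerSeries.C (-1) * ((D - C (Kq F q T) * X : ℂ[X]) : PowerSeries ℂ) := by
    rw [map_neg, map_one]; ring
  rw [h5]
  refine h4.congr fun t h0 h1' => ?_
  obtain ⟨s, hs, rfl⟩ := exists_s q t h0 h1'
  have h6 := poin_val q f s hs
  have h7 := h s hs.le
  set Z := (∫⁻ z, tau q s (MvPolynomial.aeval z f) ∂(Measure.pi fun _ => mu q)).toReal
  have h8 : (1 - (tr' q s : ℂ)) * ∑' m : ℕ, (cN q f m : ℂ) * (tr' q s : ℂ) ^ m =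
      1 - (tr' q s : ℂ) * (Z : ℂ) := by
    have h9 := congrArg (fun x : ℝ => (x : ℂ)) h6
    simp only [Complex.ofReal_mul, Complex.ofReal_sub, Complex.ofReal_one,
      Complex.ofReal_tsum, Complex.ofReal_pow] at h9
    exact h9
  simp only [eval_sub, eval_mul, eval_X, eval_one, eval_C]
  linear_combination D.eval (tr' q s : ℂ) * h8 - (tr' q s : ℂ) * h7

theorem Rc_eval_one (e : T → V → ℕ) (a : T → ℕ) :
    (Rc q (F.nu T) (F.mul e a)).eval 1 = Kq F q T := by
  unfold Rc Kq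
  rw [eval_prod]
  refine Finset.prod_congr rfl fun i _ => ?_
  rw [eval_sub, eval_C, eval_pow, eval_X, one_pow]

/-- **The poles of the Poincaré series and their orders.** -/
theorem poincare_poles (e : T → V → ℕ) (a : T → ℕ) (T₀ : ℂ) (r : ℕ) (hr : 0 < r) :
    IsPoleOfOrder (poincare q (F.formZ e a)) T₀ r ↔
      cnt q (F.nu T) (F.mul e a) T₀ = r := by
  have hq1 : 1 < q := (Fact.out : q.Prime).one_lt
  have hK := Kq_ne (q := q) (T := T) F
  set D := Rc q (F.nu T) (F.mul e a) with hDdef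
  have hD0 : D ≠ 0 := Rc_ne q hq1 _ _ (F.nu_pos T)
  have hrm : D.rootMultiplicity T₀ = cnt q (F.nu T) (F.mul e a) T₀ :=
    Rc_rm_eq q _ _ hq1 (F.nu_pos T) T₀
  have hform := poincare_formula (q := q) F e a
  rw [← hDdef] at hform
  have hone : D.eval 1 = Kq F q T := Rc_eval_one F e a
  have hX1 : (1 - X : ℂ[X]) ≠ 0 := by
    intro h
    have := congrArg (fun P : ℂ[X] => P.eval 0) h
    simp at this
  -- a root of `D` is neither `0` nor `1`
  have hroot : D.eval T₀ = 0 → T₀ ≠ 0 ∧ T₀ ≠ 1 := by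
    intro h
    constructor
    · rintro rfl
      have h1 : D.rootMultiplicity 0 ≠ 0 := by
        rw [Ne, rootMultiplicity_eq_zero_iff]
        intro h2
        exact hD0 (h2 h)
      rw [hrm] at h1
      apply h1
      unfold cnt
      rw [Nat.card_eq_zero]
      left
      refine ⟨fun i => ?_⟩
      have h2 := i.2.2
      rw [zero_pow i.2.1.ne'] at h2
      have h3 : q ^ F.nu T i.1 ≠ 0 := pow_ne_zero _ (Fact.out : q.Prime).ne_zero
      exact h3 (by exact_mod_cast h2.symm)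
    · rintro rfl
      rw [hone] at h
      exact hK h
  constructor
  · rintro ⟨A, B, hA, hB, h⟩
    have h1 : (X - C T₀) ^ r * B * (D - C (Kq F q T) * X) = A * (D * (1 - X)) := by
      have h2 : (((X - C T₀) ^ r * B * (D - C (Kq F q T) * X) : ℂ[X]) : PowerSeries ℂ) =
          ((A * (D * (1 - X)) : ℂ[X]) : PowerSeries ℂ) := by
        rw [Polynomial.coe_mul, Polynomial.coe_mul A, ← h, ← hform]
        ring
      exact Polynomial.coe_injective ℂ h2
    have h3 := congrArg (fun P : ℂ[X] => P.eval T₀) h1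
    simp only [eval_mul, eval_pow, eval_sub, eval_X, eval_C, sub_self, zero_pow hr.ne', zero_mul,
      eval_one] at h3
    have h4 : D.eval T₀ = 0 := by
      rcases mul_eq_zero.1 h3.symm with h5 | h5
      · exact absurd h5 hA
      rcases mul_eq_zero.1 h5 with h6 | h6
      · exact h6
      · exfalso
        have hT : T₀ = 1 := by linear_combination -h6
        subst hT
        -- cancel one factor `X - 1`
        have h7 : (X - C (1 : ℂ)) ∣ (D - C (Kq F q T) * X) := by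
          rw [dvd_iff_isRoot, IsRoot.def]
          simp [hone]
        obtain ⟨G, hG⟩ := h7
        have h8 : (X - C (1 : ℂ)) * ((X - C 1) ^ r * B * G) = (X - C 1) * (-(A * D)) := by
          rw [hG] at h1
          rw [C_1] at h1 ⊢
          linear_combination h1
        have h9 := mul_left_cancel₀ (X_sub_C_ne_zero (1 : ℂ)) h8
        have h10 := congrArg (fun P : ℂ[X] => P.eval 1) h9
        simp only [eval_mul, eval_pow, eval_sub, eval_X, eval_C, sub_self, zero_pow hr.ne',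
          zero_mul, eval_neg, hone] at h10
        exact (mul_ne_zero hA hK) (neg_eq_zero.1 h10.symm)
    obtain ⟨hT0, hT1⟩ := hroot h4
    have h5 : (D - C (Kq F q T) * X : ℂ[X]).eval T₀ ≠ 0 := by
      simp only [eval_sub, eval_mul, eval_C, eval_X, h4, zero_sub]
      exact neg_ne_zero.2 (mul_ne_zero hK hT0)
    have h6 : (1 - X : ℂ[X]).eval T₀ ≠ 0 := by
      simp only [eval_sub, eval_one, eval_X]
      exact sub_ne_zero.2 hT1.symm
    have hN0 : (D - C (Kq F q T) * X : ℂ[X]) ≠ 0 := by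
      intro h7
      rw [h7, eval_zero] at h5
      exact h5 rfl
    have hB0 : B ≠ 0 := by
      rintro rfl
      exact hB eval_zero
    have hA0 : A ≠ 0 := by
      rintro rfl
      exact hA eval_zero
    have hp0 : (X - C T₀) ^ r ≠ 0 := pow_ne_zero _ (X_sub_C_ne_zero T₀)
    have h7 := congrArg (rootMultiplicity T₀) h1
    rw [rootMultiplicity_mul (mul_ne_zero (mul_ne_zero hp0 hB0) hN0),
      rootMultiplicity_mul (mul_ne_zero hp0 hB0), rootMultiplicity_X_sub_C_pow,
      rootMultiplicity_mul (mul_ne_zero hA0 (mul_ne_zero hD0 hX1)),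
      rootMultiplicity_mul (mul_ne_zero hD0 hX1),
      rootMultiplicity_eq_zero (p := B) hB, rootMultiplicity_eq_zero (p := A) hA,
      rootMultiplicity_eq_zero (p := 1 - X) h6,
      rootMultiplicity_eq_zero (p := D - C (Kq F q T) * X) h5] at h7
    rw [← hrm]
    omega
  · intro h
    have h1 : 0 < D.rootMultiplicity T₀ := by rw [hrm, h]; exact hr
    have h4 : D.eval T₀ = 0 := (rootMultiplicity_pos hD0).1 h1
    obtain ⟨hT0, hT1⟩ := hroot h4
    obtain ⟨D1, hD1, hnd⟩ := exists_eq_pow_rootMultiplicity_mul_and_not_dvd D hD0 T₀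
    rw [hrm, h] at hD1
    refine ⟨D - C (Kq F q T) * X, D1 * (1 - X), ?_, ?_, ?_⟩
    · simp only [eval_sub, eval_mul, eval_C, eval_X, h4, zero_sub]
      exact neg_ne_zero.2 (mul_ne_zero hK hT0)
    · rw [eval_mul]
      refine mul_ne_zero (fun h5 => hnd (dvd_iff_isRoot.2 h5)) ?_
      simp only [eval_sub, eval_one, eval_X]
      exact sub_ne_zero.2 hT1.symm
    · rw [← mul_assoc, ← hD1]
      exact hform

end Zeta

end Pool.Agent.Run7.h697.TW
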